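import Mathlib

/-! No bounded obstruction: definitions and rows (helper26).

THEOREM. Let `F` be a finite field. (1) If `|F| ≥ 4`, then for every `K` every finite word of nonzero
elements extends to an infinite sequence `u` of nonzero elements such that for all large `n` every
irreducible factor of `f_n = u_0 + ... + u_n X^n` has degree `> K`. (2) If `|F| ≤ 3`, then for every
sequence `u` of nonzero elements infinitely many `f_n` have a root in `F`. -/

set_option autoImplicit false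

namespace Pool.Agent.Lib.MP_5f5f24_nt.NB

open Finset Polynomial

universe v

/-- `tail F`: there is a sequence `a` of nonzero elements of `F` such that for every nonzero `α` in
an extension field the partial sums of `a_i α ^ i` do not exhaust the field. -/
def Tail (F : Type v) [Field F] : Prop :=
  ∃ a : ℕ → F, (∀ i, a i ≠ 0) ∧ ∀ (L : Type v) [Field L] [Algebra F L] (α : L), α ≠ 0 →
    ∃ c : L, ∀ n : ℕ, c + ∑ i ∈ range n, algebraMap F L (a i) * α ^ i ≠ 0

/-- the conclusion (1) -/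
def NoBdd (F : Type v) [Field F] : Prop :=
  ∀ (K l : ℕ) (w : ℕ → F), (∀ i, w i ≠ 0) → ∃ u : ℕ → F, (∀ i, u i ≠ 0) ∧ (∀ i < l, u i = w i) ∧
    ∃ N : ℕ, ∀ n : ℕ, N ≤ n → ∀ g : F[X], Irreducible g →
      g ∣ ∑ i ∈ range (n + 1), C (u i) * X ^ i → K < g.natDegree

/-- ROW CORE (26). Put `q = |F|`, `T = ∏_{k=1}^{K} (q ^ k - 1)`; every irreducible `g` of degree
`k ≤ K`, `g` not associated to `X`, has `(root g) ^ T = 1` in `AdjoinRoot g`. Chinese remainder:
a polynomial `r` with `r(root g) = c_g` for all monic irreducible `g ≠ X`, `deg g ≤ K`. First block of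
`M T ≥ l` letters: `w` (all nonzero), then two blocks of `T` letters, letters `x_i, y_i ≠ 0` chosen
such that the sum of all letters at places `= i mod T` is the `i`-th coefficient of
`r mod (X ^ T - 1)` (possible since `|F| ≥ 3`), then the tail `a`. -/
def StCore : Prop := ∀ (F : Type v) [Field F] [Finite F], 3 ≤ Nat.card F → Tail F → NoBdd F

/-- ROW A: `F` is not a prime field. `a i = 1`. `α ≠ 1`: `c = 1 / (α - 1)`, the sum is
`α ^ n / (α - 1)`; `α = 1`: `c = b`. -/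
def StA : Prop := ∀ (F : Type v) [Field F] (b : F), (∀ n : ℕ, b ≠ (n : F)) → Tail F

/-- ROW B: `a (2 j) = a (2 j + 1) = κ ^ j`. (i) `α = -1`: `c = - C`, sums `c`, `c + κ ^ j`.
(ii) `κ α = -1`: `c = C - 1`, sums `c`, `C`, `C - κ ^ (-(j + 1))`. (iii) `κ α ^ 2 = 1`: `c = 1`, sums
`1 + j (1 + α)`, `2 + j (1 + α)`, and `α` is not in `F`. (iv) else `c = (1 + α) / (κ α ^ 2 - 1)`,
sums `c (κ α ^ 2) ^ j` and `(κ α ^ 2) ^ j α (1 + κ α) / (κ α ^ 2 - 1)`. -/
def StB : Prop := ∀ (F : Type v) [Field F] (κ C : F), (2 : F) ≠ 0 → κ ≠ 0 → ¬ IsSquare κ → C ≠ 0 →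
  (∀ j : ℤ, C ≠ κ ^ j) → Tail F

/-- ROW C: `a` has period 3: `1, 1, -2`. Let `D = 1 + α + α ^ 2`. (i) `α = 1`: `c = 1`, sums
`1, 2, 3`. (ii) `α = -2`: `c = C + 1`, sums `C + α ^ (3 j)`, `C - α ^ (3 j + 1)`, `C`. (iii) `2 α = -1`:
`c = C`, sums `C`, `C + α ^ (3 j)`, `C - α ^ (3 j + 1)`. (iv) `D = 0` (then `α` is not in `F`):
`c = 1`, sums `1 + 3 j (1 + α)`, `2 + 3 j (1 + α)`, `2 + α + 3 j (1 + α)`. (v) else
`c = - (1 + 2 α) / D`, sums `- α ^ (3 j) (1 + 2 α) / D`, `α ^ (3 j + 1) (α - 1) / D`,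
`α ^ (3 j + 2) (2 + α) / D`. -/
def StC : Prop := ∀ (F : Type v) [Field F] (C : F), (2 : F) ≠ 0 → (3 : F) ≠ 0 →
  (∀ x : F, x ^ 2 + x + 1 ≠ 0) → IsSquare (-1 : F) → IsSquare (2 : F) → ¬ IsSquare C → Tail F

/-- ROW D: the field with five elements. `a` has period 8: `1, 2, 2, 1, -1, -2, -2, -1`.
Outside the roots of `1 + X ^ 4` and of the four numerators `N_r` (products of `X - 1`, ..., and
quadratics `X ^ 2 + 3 X + 4`, `X ^ 2 + 2 X + 4`, `X ^ 2 + X + 1`, `X ^ 2 - X + 1`) take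
`c = - N_0(α) / (1 + α ^ 4)`; at these finitely many `α` (in the field with 25 elements) the sums are
periodic, a finite check. -/
def StD : Prop := ∀ (F : Type v) [Field F], Nat.card F = 5 → Tail F

/-- ROW G: group theory. Not prime: A. Prime, `p - 1 = 2 ^ e m`, `m ≥ 3` odd: `κ = g ^ m`, B.
`p = 2 ^ e + 1 ≥ 17`: C (`p = 2 mod 3`, `p = 1 mod 8`). `p = 5`: D. -/
def StG : Prop := StA.{v} → StB.{v} → StC.{v} → StD.{v} →
  ∀ (F : Type v) [Field F] [Finite F], 4 ≤ Nat.card F → Tail F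

/-- ROW NEG: two or three elements. Two: `f_n(1) = n + 1`. Three: `z_n = f_n(1)` must alternate, so
`u` alternates from some point on and `f_n(-1)` increases by a constant `± 1`. -/
def StNeg : Prop := ∀ (F : Type v) [Field F] [Finite F], Nat.card F ≤ 3 → ∀ u : ℕ → F,
  (∀ i, u i ≠ 0) → ∀ N : ℕ, ∃ n : ℕ, N ≤ n ∧ ∃ x : F,
    (∑ i ∈ range (n + 1), C (u i) * X ^ i : F[X]).eval x = 0

end Pool.Agent.Lib.MP_5f5f24_nt.NB
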