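import Mathlib
import Pool.Agent.Lib.MP_5f5f24_nt.NB.Defs26

/-! Row A (38). -/

set_option autoImplicit false

namespace Pool.Agent.Lib.MP_5f5f24_nt.NB

open Finset Polynomial

universe v

theorem rowA38 : StA.{v} := by
  intro F _ b hb
  refine ⟨fun _ => 1, fun _ => one_ne_zero, fun L _ _ α hα => ?_⟩
  by_cases h1 : α = 1
  · subst h1
    refine ⟨algebraMap F L (-b), fun n h => hb n ?_⟩
    simp only [map_one, one_pow, sum_const, card_range, nsmul_eq_mul, mul_one] at h
    have h2 : algebraMap F L (-b + n) = 0 := by
      rw [map_add, map_natCast]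
      exact h
    have h3 := (map_eq_zero _).1 h2
    linear_combination -h3
  · have h2 : α - 1 ≠ 0 := sub_ne_zero.2 h1
    refine ⟨1 / (α - 1), fun n h => ?_⟩
    simp only [map_one, one_mul] at h
    rw [geom_sum_eq h1, ← add_div, div_eq_zero_iff] at h
    rcases h with h | h
    · have h3 : α ^ n = 0 := by linear_combination h
      exact pow_ne_zero n hα h3
    · exact h2 h

end Pool.Agent.Lib.MP_5f5f24_nt.NB
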