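import Mathlib
import Pool.Agent.Lib.MP_5f5f24_nt.NB.Defs26

/-! Row A (helper94): a field with an element outside the prime ring. -/

set_option autoImplicit false

namespace Pool.Agent.Lib.MP_5f5f24_nt.NB

open Finset Polynomial

universe v

theorem rowA94 : StA.{v} := by
  intro F _ b hb
  refine ⟨fun _ => 1, fun _ => one_ne_zero, ?_⟩
  intro L _ _ α hα
  by_cases h1 : α = 1
  · refine ⟨- algebraMap F L b, ?_⟩
    intro n h
    have hs : ∑ i ∈ range n, algebraMap F L (1 : F) * α ^ i = (n : L) := by
      subst h1
      simp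
    rw [hs] at h
    apply hb n
    apply (algebraMap F L).injective
    rw [map_natCast]
    linear_combination -h
  · have h1' : α - 1 ≠ 0 := sub_ne_zero.mpr h1
    refine ⟨1 / (α - 1), ?_⟩
    intro n h
    have hs : ∑ i ∈ range n, algebraMap F L (1 : F) * α ^ i = (α ^ n - 1) / (α - 1) := by
      simp only [map_one, one_mul]
      exact geom_sum_eq h1 n
    rw [hs] at h
    have h2 : 1 / (α - 1) + (α ^ n - 1) / (α - 1) = α ^ n / (α - 1) := by
      rw [← add_div]
      congr 1
      ring
    rw [h2] at h
    exact (div_ne_zero (pow_ne_zero n hα) h1') h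

end Pool.Agent.Lib.MP_5f5f24_nt.NB
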