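import Mathlib
import Pool.Agent.Lib.MP_5f5f24_nt.NB.Defs26

/-! Row B (helper94): a nonsquare `κ` and an element outside the group it generates. -/

set_option autoImplicit false

namespace Pool.Agent.Lib.MP_5f5f24_nt.NB

open Finset Polynomial

universe v

/-- the partial sums of the sequence `κ ^ (i / 2)` -/
theorem sumB94 {L : Type v} [Field L] (k α : L) (j : ℕ) :
    (∑ i ∈ range (2 * j), k ^ (i / 2) * α ^ i
        = (1 + α) * ∑ t ∈ range j, (k * α ^ 2) ^ t) ∧
      (∑ i ∈ range (2 * j + 1), k ^ (i / 2) * α ^ i
        = (1 + α) * (∑ t ∈ range j, (k * α ^ 2) ^ t) + (k * α ^ 2) ^ j) := by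
  induction j with
  | zero => simp
  | succ j ih =>
    have e0 : (2 * j + 1) / 2 = j := by omega
    have h1 : ∑ i ∈ range (2 * (j + 1)), k ^ (i / 2) * α ^ i
        = (1 + α) * ∑ t ∈ range (j + 1), (k * α ^ 2) ^ t := by
      have e : 2 * (j + 1) = 2 * j + 1 + 1 := by ring
      rw [e, sum_range_succ, ih.2, sum_range_succ, e0]
      rw [mul_pow, ← pow_mul]
      ring
    refine ⟨h1, ?_⟩
    rw [sum_range_succ, h1]
    have e1 : (2 * (j + 1)) / 2 = j + 1 := by omega
    rw [e1, mul_pow k, ← pow_mul]

theorem rowB94 : StB.{v} := by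
  intro F _ κ C h2 hκ hsq hC hCκ
  refine ⟨fun i => κ ^ (i / 2), fun i => pow_ne_zero _ hκ, ?_⟩
  intro L _ _ α hα
  set k : L := algebraMap F L κ with hk
  have hinj := (algebraMap F L).injective
  have hk0 : k ≠ 0 := by
    intro h
    exact hκ (hinj (by rw [← hk, h, map_zero]))
  have hk1 : k ≠ 1 := by
    intro h
    apply hsq
    have : κ = 1 := hinj (by rw [← hk, h, map_one])
    rw [this]
    exact ⟨1, by ring⟩
  have hC0 : algebraMap F L C ≠ 0 := by
    intro h
    exact hC (hinj (by rw [h, map_zero]))
  have hCk : ∀ j : ℤ, algebraMap F L C ≠ k ^ j := by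
    intro j h
    apply hCκ j
    apply hinj
    rw [h, map_zpow₀]
  have key : ∀ c : L, (∀ j : ℕ, c + (1 + α) * (∑ t ∈ range j, (k * α ^ 2) ^ t) ≠ 0) →
      (∀ j : ℕ, c + ((1 + α) * (∑ t ∈ range j, (k * α ^ 2) ^ t) + (k * α ^ 2) ^ j) ≠ 0) →
      ∃ c : L, ∀ n : ℕ, c + ∑ i ∈ range n, algebraMap F L (κ ^ (i / 2)) * α ^ i ≠ 0 := by
    intro c hc1 hc2
    refine ⟨c, ?_⟩
    intro n
    have hs : ∑ i ∈ range n, algebraMap F L (κ ^ (i / 2)) * α ^ i
        = ∑ i ∈ range n, k ^ (i / 2) * α ^ i := by
      apply sum_congr rfl
      intro i _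
      rw [map_pow]
    rw [hs]
    rcases Nat.even_or_odd' n with ⟨j, hj | hj⟩
    · rw [hj, (sumB94 k α j).1]
      exact hc1 j
    · rw [hj, (sumB94 k α j).2]
      exact hc2 j
  by_cases hx : k * α ^ 2 = 1
  · -- case (iii)
    have hαF : ∀ a : F, algebraMap F L a ≠ α := by
      intro a ha
      apply hsq
      have h3 : κ * a ^ 2 = 1 := by
        apply hinj
        rw [map_mul, map_pow, map_one, ha]
        exact hx
      have ha0 : a ≠ 0 := by
        intro h
        rw [h] at h3
        simp at h3
      refine ⟨a⁻¹, ?_⟩
      field_simp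
      linear_combination h3
    have hlin : ∀ (m : F) (j : ℕ), m ≠ 0 →
        algebraMap F L m + (1 + α) * (j : L) ≠ 0 := by
      intro m j hm h
      by_cases hj : (j : F) = 0
      · have hj' : (j : L) = 0 := by
          rw [← map_natCast (algebraMap F L), hj, map_zero]
        rw [hj', mul_zero, add_zero] at h
        exact hm (hinj (by rw [h, map_zero]))
      · have hj' : (j : L) ≠ 0 := by
          intro h'
          apply hj
          apply hinj
          rw [map_natCast, h', map_zero]
        apply hαF (-(m + j) / j)
        rw [map_div₀, map_neg, map_add, map_natCast]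
        rw [div_eq_iff hj']
        linear_combination -h
    have hsum : ∀ j : ℕ, ∑ t ∈ range j, (k * α ^ 2) ^ t = (j : L) := by
      intro j
      rw [hx]
      simp
    apply key 1
    · intro j h
      rw [hsum] at h
      apply hlin 1 j one_ne_zero
      rw [map_one]
      exact h
    · intro j h
      rw [hsum, hx, one_pow] at h
      apply hlin 2 j h2
      rw [map_ofNat]
      linear_combination h
  · have hx' : k * α ^ 2 - 1 ≠ 0 := sub_ne_zero.mpr hx
    have hgeo : ∀ j : ℕ, ∑ t ∈ range j, (k * α ^ 2) ^ t
        = ((k * α ^ 2) ^ j - 1) / (k * α ^ 2 - 1) := fun j => geom_sum_eq hx j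
    have hx0 : k * α ^ 2 ≠ 0 := mul_ne_zero hk0 (pow_ne_zero 2 hα)
    by_cases hi : α = -1
    · -- case (i)
      apply key (- algebraMap F L C)
      · intro j h
        rw [hi] at h
        apply hC0
        linear_combination -h
      · intro j h
        rw [hi] at h
        apply hCk j
        rw [zpow_natCast]
        have e : k * (-1 : L) ^ 2 = k := by ring
        rw [e] at h
        linear_combination -h
    · by_cases hii : k * α = -1
      · -- case (ii)
        have e1 : k * α ^ 2 = - α := by
          linear_combination α * hii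
        have e2 : - α = k⁻¹ := by
          field_simp
          linear_combination -hii
        have hα1 : - α - 1 ≠ 0 := by
          intro h
          apply hi
          linear_combination -h
        have e3 : ∀ j : ℕ, (1 + α) * (∑ t ∈ range j, (k * α ^ 2) ^ t) = 1 - (- α) ^ j := by
          intro j
          rw [hgeo, e1]
          rw [← mul_div_assoc, div_eq_iff hα1]
          ring
        apply key (algebraMap F L C - 1)
        · intro j h
          rw [e3] at h
          apply hCk (-(j : ℤ))
          rw [zpow_neg, zpow_natCast, ← inv_pow, ← e2]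
          linear_combination h
        · intro j h
          rw [e3, e1] at h
          apply hC0
          linear_combination h
      · -- case (iv)
        have hA : 1 + α ≠ 0 := by
          intro h
          apply hi
          linear_combination h
        have hB : 1 + k * α ≠ 0 := by
          intro h
          apply hii
          linear_combination h
        apply key ((1 + α) / (k * α ^ 2 - 1))
        · intro j h
          rw [hgeo] at h
          have e : (1 + α) / (k * α ^ 2 - 1)
              + (1 + α) * (((k * α ^ 2) ^ j - 1) / (k * α ^ 2 - 1))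
              = (1 + α) * (k * α ^ 2) ^ j / (k * α ^ 2 - 1) := by
            rw [← mul_div_assoc, ← add_div]
            congr 1
            ring
          rw [e] at h
          exact (div_ne_zero (mul_ne_zero hA (pow_ne_zero j hx0)) hx') h
        · intro j h
          rw [hgeo] at h
          have e : (1 + α) / (k * α ^ 2 - 1)
              + ((1 + α) * (((k * α ^ 2) ^ j - 1) / (k * α ^ 2 - 1)) + (k * α ^ 2) ^ j)
              = (k * α ^ 2) ^ j * (α * (1 + k * α)) / (k * α ^ 2 - 1) := by
            rw [eq_div_iff hx', add_mul, add_mul, div_mul_cancel₀ _ hx', mul_assoc (1 + α),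
              div_mul_cancel₀ _ hx']
            ring
          rw [e] at h
          exact (div_ne_zero (mul_ne_zero (pow_ne_zero j hx0) (mul_ne_zero hα hB)) hx') h

end Pool.Agent.Lib.MP_5f5f24_nt.NB
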