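import Pool.Agent.Lib.MP_5f5f24_nt.NB.Defs26

/-! Row C of the theorem on bounded obstructions (helper97). -/

set_option autoImplicit false

namespace Pool.Agent.Lib.MP_5f5f24_nt.NB

open Finset Polynomial

universe v

namespace C97

/-- the sequence `1, 1, -2, 1, 1, -2, ...` -/
def a97 (F : Type v) [Field F] (i : ℕ) : F := if i % 3 = 2 then -2 else 1

section

variable {F L : Type v} [Field F] [Field L] [Algebra F L]

/-- the partial sums -/
def S (F : Type v) [Field F] [Algebra F L] (α : L) (n : ℕ) : L :=
  ∑ i ∈ range n, algebraMap F L (a97 F i) * α ^ i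

theorem S_zero (α : L) : S F α 0 = 0 := by simp [S]

theorem S_one (α : L) (j : ℕ) : S F α (3 * j + 1) = S F α (3 * j) + α ^ (3 * j) := by
  have h : (3 * j) % 3 ≠ 2 := by omega
  unfold S
  rw [sum_range_succ, a97, if_neg h, map_one, one_mul]

theorem S_two (α : L) (j : ℕ) :
    S F α (3 * j + 2) = S F α (3 * j) + α ^ (3 * j) * (1 + α) := by
  have h : (3 * j + 1) % 3 ≠ 2 := by omega
  have e : S F α (3 * j + 2) = S F α (3 * j + 1) + α ^ (3 * j + 1) := by
    unfold S
    rw [sum_range_succ _ (3 * j + 1), a97, if_neg h, map_one, one_mul]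
  rw [e, S_one]
  ring

theorem S_three (α : L) (j : ℕ) :
    S F α (3 * (j + 1)) = S F α (3 * j) + α ^ (3 * j) * (1 + α - 2 * α ^ 2) := by
  have h : (3 * j + 2) % 3 = 2 := by omega
  have e : S F α (3 * (j + 1)) = S F α (3 * j + 2) + (-2) * α ^ (3 * j + 2) := by
    unfold S
    rw [show 3 * (j + 1) = 3 * j + 2 + 1 by ring, sum_range_succ _ (3 * j + 2), a97, if_pos h,
      map_neg, map_ofNat]
  rw [e, S_two]
  ring

/-- three conditions suffice -/
theorem red (α c : L) (h0 : ∀ j, c + S F α (3 * j) ≠ 0)
    (h1 : ∀ j, c + S F α (3 * j) + α ^ (3 * j) ≠ 0)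
    (h2 : ∀ j, c + S F α (3 * j) + α ^ (3 * j) * (1 + α) ≠ 0) (n : ℕ) :
    c + ∑ i ∈ range n, algebraMap F L (a97 F i) * α ^ i ≠ 0 := by
  change c + S F α n ≠ 0
  obtain ⟨j, r, hr, rfl⟩ : ∃ j r : ℕ, r < 3 ∧ n = 3 * j + r :=
    ⟨n / 3, n % 3, Nat.mod_lt _ (by norm_num), by omega⟩
  interval_cases r
  · exact h0 j
  · rw [S_one, ← add_assoc]
    exact h1 j
  · rw [S_two, ← add_assoc]
    exact h2 j

theorem two_ne (h : (2 : F) ≠ 0) : (2 : L) ≠ 0 := by
  intro h1
  apply h
  apply (algebraMap F L).injective
  rw [map_ofNat, h1, map_zero]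

theorem three_ne (h : (3 : F) ≠ 0) : (3 : L) ≠ 0 := by
  intro h1
  apply h
  apply (algebraMap F L).injective
  rw [map_ofNat, h1, map_zero]

/-- squares are not `C` -/
theorem ne_of_sq {C : F} (hC : ¬ IsSquare C) {x : F} (hx : IsSquare x) {y : L}
    (hy : algebraMap F L x = y) : algebraMap F L C + -y ≠ 0 := by
  intro h
  apply hC
  have h1 : algebraMap F L C = algebraMap F L x := by
    rw [hy]
    linear_combination h
  rw [(algebraMap F L).injective h1]
  exact hx

theorem sq_neg {x : F} (h1 : IsSquare (-1 : F)) (hx : IsSquare x) : IsSquare (-x) := by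
  have := h1.mul hx
  simpa using this

end

end C97

open C97 in
theorem rowC97 : StC.{v} := by
  intro F _ C h2 h3 hx hm1 hs2 hC
  refine ⟨a97 F, fun i => ?_, ?_⟩
  · unfold a97
    split_ifs
    · exact neg_ne_zero.2 h2
    · exact one_ne_zero
  intro L _ _ α hα
  have h2L : (2 : L) ≠ 0 := two_ne h2
  have h3L : (3 : L) ≠ 0 := three_ne h3
  have hC0 : algebraMap F L C ≠ 0 := by
    intro h
    apply hC
    have : C = 0 := (algebraMap F L).injective (by rw [h, map_zero])
    rw [this]
    exact ⟨0, by simp⟩
  by_cases e1 : α = 1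
  · subst e1
    have hs : ∀ j, S F (1 : L) (3 * j) = 0 := by
      intro j
      induction j with
      | zero => exact S_zero _
      | succ j ih => rw [S_three, ih]; norm_num
    refine ⟨1, red 1 1 ?_ ?_ ?_⟩ <;> intro j <;> rw [hs j]
    · simp
    · intro h
      apply h2L
      simpa [one_add_one_eq_two] using h
    · intro h
      apply h3L
      have : (1 : L) + 0 + 1 ^ (3 * j) * (1 + 1) = 3 := by rw [one_pow]; norm_num
      rw [← this, h]
  by_cases e2 : α = -2
  · have hq : ∀ k : ℕ, IsSquare ((-2 : F) ^ k) := fun k => (sq_neg hm1 hs2).pow k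
    have hmap : ∀ k : ℕ, algebraMap F L ((-2 : F) ^ k) = α ^ k := by
      intro k
      rw [map_pow, map_neg, map_ofNat, e2]
    have hs : ∀ j, S F α (3 * j) = α ^ (3 * j) - 1 := by
      intro j
      induction j with
      | zero => rw [mul_zero, S_zero, pow_zero, sub_self]
      | succ j ih =>
        rw [S_three, ih, mul_add, pow_add, e2]
        ring
    refine ⟨algebraMap F L C + 1, red _ _ ?_ ?_ ?_⟩ <;> intro j <;> rw [hs j]
    · have := ne_of_sq (L := L) hC (sq_neg hm1 (hq (3 * j)))
        (y := -α ^ (3 * j)) (by rw [map_neg, hmap])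
      intro h
      apply this
      linear_combination h
    · have := ne_of_sq (L := L) hC (hq (3 * j + 1)) (hmap _)
      intro h
      apply this
      rw [pow_succ, e2] at *
      linear_combination h
    · intro h
      apply hC0
      rw [e2] at h
      linear_combination h
  by_cases e3 : 2 * α = -1
  · have ha : α = -(2 : L)⁻¹ := by
      field_simp
      linear_combination e3
    have hq : ∀ k : ℕ, IsSquare ((-(2 : F)⁻¹) ^ k) := fun k => by
      refine (sq_neg hm1 ?_).pow k
      obtain ⟨r, hr⟩ := hs2
      exact ⟨r⁻¹, by rw [hr, mul_inv]⟩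
    have hmap : ∀ k : ℕ, algebraMap F L ((-(2 : F)⁻¹) ^ k) = α ^ k := by
      intro k
      rw [map_pow, map_neg, map_inv₀, map_ofNat, ha]
    have hs : ∀ j, S F α (3 * j) = 0 := by
      intro j
      induction j with
      | zero => exact S_zero _
      | succ j ih =>
        rw [S_three, ih]
        linear_combination α ^ (3 * j) * (1 - α) * e3
    refine ⟨algebraMap F L C, red _ _ ?_ ?_ ?_⟩ <;> intro j <;> rw [hs j, add_zero]
    · exact hC0
    · have := ne_of_sq (L := L) hC (sq_neg hm1 (hq (3 * j)))
        (y := -α ^ (3 * j)) (by rw [map_neg, hmap])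
      intro h
      apply this
      linear_combination h
    · have := ne_of_sq (L := L) hC (hq (3 * j + 1)) (hmap _)
      intro h
      apply this
      rw [pow_succ]
      linear_combination h - α ^ (3 * j) * e3
  by_cases e4 : 1 + α + α ^ 2 = 0
  · have hF : ∀ x y : F, algebraMap F L x + algebraMap F L y * α = 0 → x = 0 ∧ y = 0 := by
      intro x y h
      have hy : y = 0 := by
        by_contra hy
        have hy' : algebraMap F L y ≠ 0 := by
          intro h'
          exact hy ((algebraMap F L).injective (by rw [h', map_zero]))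
        have hα' : α = algebraMap F L (-x / y) := by
          rw [map_div₀, map_neg]
          field_simp
          linear_combination h
        apply hx (-x / y)
        apply (algebraMap F L).injective
        rw [map_add, map_add, map_pow, ← hα', map_one, map_zero]
        linear_combination e4
      refine ⟨?_, hy⟩
      rw [hy, map_zero, zero_mul, add_zero] at h
      exact (algebraMap F L).injective (by rw [h, map_zero])
    have h31 : α ^ 3 = 1 := by linear_combination (α - 1) * e4
    have hp : ∀ j : ℕ, α ^ (3 * j) = 1 := fun j => by rw [pow_mul, h31, one_pow]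
    have hs : ∀ j : ℕ, S F α (3 * j) = algebraMap F L (3 * j) * (1 + α) := by
      intro j
      induction j with
      | zero => rw [mul_zero, S_zero]; simp
      | succ j ih =>
        rw [S_three, ih, hp]
        push_cast
        simp only [map_mul, map_add, map_natCast, map_ofNat, map_one]
        linear_combination -2 * e4
    refine ⟨1, red _ _ ?_ ?_ ?_⟩ <;> intro j <;> rw [hs j]
    · intro h
      have := hF (1 + 3 * j) (3 * j) (by
        rw [map_add, map_one]
        linear_combination h)
      rw [this.2] at this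
      simpa using this.1
    · intro h
      rw [hp] at h
      have := hF (2 + 3 * j) (3 * j) (by
        rw [map_add, map_ofNat]
        linear_combination h)
      rw [this.2] at this
      exact h2 (by simpa using this.1)
    · intro h
      rw [hp] at h
      have := hF (2 + 3 * j) (1 + 3 * j) (by
        rw [map_add, map_add, map_ofNat, map_one]
        linear_combination h)
      have h5 : (1 : F) = 0 := by linear_combination this.1 - this.2
      exact one_ne_zero h5
  · set D := 1 + α + α ^ 2 with hD
    have hc : ∀ j, (-(1 + 2 * α) / D + S F α (3 * j)) * D = -(1 + 2 * α) * α ^ (3 * j) := by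
      intro j
      induction j with
      | zero => rw [mul_zero, S_zero, add_zero, div_mul_cancel₀ _ e4, pow_zero, mul_one]
      | succ j ih =>
        rw [S_three, mul_add 3 j 1, pow_add]
        have : (-(1 + 2 * α) / D + (S F α (3 * j) + α ^ (3 * j) * (1 + α - 2 * α ^ 2))) * D =
            (-(1 + 2 * α) / D + S F α (3 * j)) * D +
              α ^ (3 * j) * (1 + α - 2 * α ^ 2) * D := by ring
        rw [this, ih, hD]
        ring
    have hαp : ∀ k : ℕ, α ^ k ≠ 0 := fun k => pow_ne_zero _ hα
    refine ⟨-(1 + 2 * α) / D, red _ _ ?_ ?_ ?_⟩ <;> intro j h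
    · have h5 := hc j
      rw [h, zero_mul] at h5
      have h6 : (1 + 2 * α) * α ^ (3 * j) = 0 := by linear_combination h5
      rcases mul_eq_zero.1 h6 with h7 | h7
      · exact e3 (by linear_combination h7)
      · exact hαp _ h7
    · have h6 : α * (α - 1) * α ^ (3 * j) = 0 := by
        have h5 := hc j
        have h8 : (-(1 + 2 * α) / D + S F α (3 * j) + α ^ (3 * j)) * D = 0 := by
          rw [h, zero_mul]
        rw [add_mul, h5, hD] at h8
        linear_combination h8
      rcases mul_eq_zero.1 h6 with h7 | h7
      · rcases mul_eq_zero.1 h7 with h9 | h9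
        · exact hα h9
        · exact e1 (by linear_combination h9)
      · exact hαp _ h7
    · have h6 : α ^ 2 * (α + 2) * α ^ (3 * j) = 0 := by
        have h5 := hc j
        have h8 : (-(1 + 2 * α) / D + S F α (3 * j) + α ^ (3 * j) * (1 + α)) * D = 0 := by
          rw [h, zero_mul]
        rw [add_mul, h5, hD] at h8
        linear_combination h8
      rcases mul_eq_zero.1 h6 with h7 | h7
      · rcases mul_eq_zero.1 h7 with h9 | h9
        · exact hα (pow_eq_zero_iff (two_ne_zero) |>.1 h9)
        · exact e2 (by linear_combination h9)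
      · exact hαp _ h7

end Pool.Agent.Lib.MP_5f5f24_nt.NB
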