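import Pool.Agent.Lib.MP_5f5f24_nt.NB.Defs26

/-! Row D (helper60): the field with five elements. -/

set_option autoImplicit false

namespace Pool.Agent.Lib.MP_5f5f24_nt.NB

open Finset Polynomial

universe v

namespace D60

/-- the tail `1, 2, 2, 1, -1, -2, -2, -1`, period 8, as natural numbers -/
def A (i : ℕ) : ℕ :=
  match i % 8 with
  | 0 => 1
  | 1 => 2
  | 2 => 2
  | 3 => 1
  | 4 => 4
  | 5 => 3
  | 6 => 3
  | _ => 4

lemma A_add (i j : ℕ) : A (8 * j + i) = A i := by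
  unfold A
  rw [show (8 * j + i) % 8 = i % 8 by omega]

lemma A_add' (T i : ℕ) (h8 : 8 ∣ T) : A (i + T) = A i := by
  obtain ⟨k, rfl⟩ := h8
  rw [add_comm]; exact A_add i k

/-- multiplication by `α`, `α ^ 2 = - b α - c`, on pairs -/
def mul (b c : ZMod 5) (v : ZMod 5 × ZMod 5) : ZMod 5 × ZMod 5 := (-(c * v.2), v.1 - b * v.2)

/-- the pair (power of `α`, partial sum) -/
def st (b c : ZMod 5) : ℕ → (ZMod 5 × ZMod 5) × (ZMod 5 × ZMod 5)
  | 0 => ((1, 0), (0, 0))
  | n + 1 =>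
    (mul b c (st b c n).1,
      ((st b c n).2.1 + (A n : ZMod 5) * (st b c n).1.1,
        (st b c n).2.2 + (A n : ZMod 5) * (st b c n).1.2))

lemma st_add (b c : ZMod 5) (T : ℕ) (h8 : 8 ∣ T) (hT : st b c T = ((1, 0), (0, 0))) (n : ℕ) :
    st b c (n + T) = st b c n := by
  induction n with
  | zero => rw [Nat.zero_add, hT]; rfl
  | succ n ih =>
    rw [show n + 1 + T = (n + T) + 1 by ring]
    simp only [st]
    rw [ih, A_add' T n h8]

lemma st_mod (b c : ZMod 5) (T : ℕ) (h8 : 8 ∣ T) (hT : st b c T = ((1, 0), (0, 0))) (n : ℕ) :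
    st b c n = st b c (n % T) := by
  have h : ∀ k r : ℕ, st b c (r + k * T) = st b c r := by
    intro k
    induction k with
    | zero => intro r; simp
    | succ k ih =>
      intro r
      rw [show r + (k + 1) * T = (r + k * T) + T by ring, st_add b c T h8 hT, ih]
  conv_lhs => rw [← Nat.mod_add_div n T, mul_comm T]
  exact h _ _

section field
variable {L : Type v} [Field L] [CharP L 5] (α : L)

/-- evaluation of a pair -/
noncomputable def phi (v : ZMod 5 × ZMod 5) : L :=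
  ZMod.castHom (dvd_refl 5) L v.1 + ZMod.castHom (dvd_refl 5) L v.2 * α

lemma phi_mul (b c : ZMod 5) (hα : α ^ 2 + ZMod.castHom (dvd_refl 5) L b * α +
    ZMod.castHom (dvd_refl 5) L c = 0) (v : ZMod 5 × ZMod 5) :
    phi α (mul b c v) = α * phi α v := by
  unfold phi mul
  simp only [map_neg, map_mul, map_sub]
  linear_combination (-(ZMod.castHom (dvd_refl 5) L v.2)) * hα

lemma phi_st (b c : ZMod 5) (hα : α ^ 2 + ZMod.castHom (dvd_refl 5) L b * α +
    ZMod.castHom (dvd_refl 5) L c = 0) (n : ℕ) :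
    phi α (st b c n).1 = α ^ n ∧
      phi α (st b c n).2 = ∑ i ∈ range n, (A i : L) * α ^ i := by
  induction n with
  | zero => simp [st, phi]
  | succ n ih =>
    obtain ⟨h1, h2⟩ := ih
    refine ⟨?_, ?_⟩
    · simp only [st]
      rw [phi_mul α b c hα, h1]; ring
    · rw [sum_range_succ, ← h2, ← h1]
      simp only [st, phi, map_add, map_mul, map_natCast]
      ring

lemma phi_inj (b c : ZMod 5) (hirr : ∀ z : ZMod 5, z ^ 2 + b * z + c ≠ 0)
    (hα : α ^ 2 + ZMod.castHom (dvd_refl 5) L b * α +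
    ZMod.castHom (dvd_refl 5) L c = 0) (v : ZMod 5 × ZMod 5) (hv : phi α v = 0) : v = (0, 0) := by
  have : Fact (Nat.Prime 5) := ⟨by norm_num⟩
  have hinj : Function.Injective (ZMod.castHom (dvd_refl 5) L) := RingHom.injective _
  by_cases h2 : v.2 = 0
  · have : ZMod.castHom (dvd_refl 5) L v.1 = 0 := by
      unfold phi at hv
      rw [h2] at hv
      simpa using hv
    have h1 : v.1 = 0 := hinj (by rw [this, map_zero])
    exact Prod.ext h1 h2
  · exfalso
    have h2' : ZMod.castHom (dvd_refl 5) L v.2 ≠ 0 := fun h => h2 (hinj (by rw [h, map_zero]))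
    have hz : α = ZMod.castHom (dvd_refl 5) L (-(v.1 / v.2)) := by
      rw [map_neg, map_div₀]
      unfold phi at hv
      field_simp
      linear_combination hv
    apply hirr (-(v.1 / v.2))
    apply hinj
    rw [map_zero, map_add, map_add, map_pow, map_mul, ← hz]
    exact hα

lemma quad (b c : ZMod 5) (T : ℕ) (t : ZMod 5 × ZMod 5) (hT0 : 0 < T) (h8 : 8 ∣ T)
    (hT : st b c T = ((1, 0), (0, 0))) (hirr : ∀ z : ZMod 5, z ^ 2 + b * z + c ≠ 0)
    (ht : ∀ r < T, ((st b c r).2.1 + t.1, (st b c r).2.2 + t.2) ≠ (0, 0))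
    (hα : α ^ 2 + ZMod.castHom (dvd_refl 5) L b * α + ZMod.castHom (dvd_refl 5) L c = 0) :
    ∃ c' : L, ∀ n : ℕ, c' + ∑ i ∈ range n, (A i : L) * α ^ i ≠ 0 := by
  refine ⟨phi α t, fun n h => ?_⟩
  rw [← (phi_st α b c hα n).2, st_mod b c T h8 hT n] at h
  refine ht (n % T) (Nat.mod_lt _ hT0) (phi_inj α b c hirr hα _ ?_)
  rw [← h]
  unfold phi
  simp only [map_add]
  ring

end field

/-- partial sums at `z` in the prime field -/
def s1 (z : ZMod 5) : ℕ → ZMod 5 × ZMod 5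
  | 0 => (1, 0)
  | n + 1 => (z * (s1 z n).1, (s1 z n).2 + (A n : ZMod 5) * (s1 z n).1)

lemma s1_add (z : ZMod 5) (hT : s1 z 8 = (1, 0)) (n : ℕ) : s1 z (n + 8) = s1 z n := by
  induction n with
  | zero => rw [Nat.zero_add, hT]; rfl
  | succ n ih =>
    have e : s1 z (n + 1 + 8) = (z * (s1 z (n + 8)).1,
        (s1 z (n + 8)).2 + (A (n + 8) : ZMod 5) * (s1 z (n + 8)).1) := rfl
    rw [e, ih, A_add' 8 n (dvd_refl 8)]
    rfl

lemma s1_mod (z : ZMod 5) (hT : s1 z 8 = (1, 0)) (n : ℕ) : s1 z n = s1 z (n % 8) := by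
  have h : ∀ k r : ℕ, s1 z (r + k * 8) = s1 z r := by
    intro k
    induction k with
    | zero => intro r; simp
    | succ k ih =>
      intro r
      rw [show r + (k + 1) * 8 = (r + k * 8) + 8 by ring, s1_add z hT, ih]
  conv_lhs => rw [← Nat.mod_add_div n 8, mul_comm 8]
  exact h _ _

lemma lin1 : ∀ z : ZMod 5, z ≠ 0 → s1 z 8 = (1, 0) := by decide

lemma lin2 : ∀ z : ZMod 5, z ≠ 0 → ∃ t : ZMod 5, ∀ r < 8, t + (s1 z r).2 ≠ 0 := by decide

lemma lin {L : Type v} [Field L] [CharP L 5] (z : ZMod 5) (hz : z ≠ 0) :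
    ∃ c' : L, ∀ n : ℕ, c' + ∑ i ∈ range n, (A i : L) * (ZMod.castHom (dvd_refl 5) L z) ^ i ≠ 0 := by
  have : Fact (Nat.Prime 5) := ⟨by norm_num⟩
  have hinj : Function.Injective (ZMod.castHom (dvd_refl 5) L) := RingHom.injective _
  have hT := lin1
  have ht := lin2
  have hs : ∀ n : ℕ, (s1 z n).1 = z ^ n ∧ (s1 z n).2 = ∑ i ∈ range n, (A i : ZMod 5) * z ^ i := by
    intro n
    induction n with
    | zero => simp [s1]
    | succ n ih =>
      obtain ⟨h1, h2⟩ := ih
      refine ⟨?_, ?_⟩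
      · simp only [s1]; rw [h1]; ring
      · rw [sum_range_succ, ← h2, ← h1]; simp only [s1]
  obtain ⟨t, ht⟩ := ht z hz
  refine ⟨ZMod.castHom (dvd_refl 5) L t, fun n h => ?_⟩
  refine ht (n % 8) (Nat.mod_lt _ (by norm_num)) ?_
  rw [← s1_mod z (hT z hz) n, (hs n).2]
  apply hinj
  rw [map_zero, map_add, map_sum, ← h]
  simp [map_mul, map_pow]

section generic
variable {L : Type v} [Field L] [CharP L 5] (α : L)

lemma sum8 (j : ℕ) (r : ℕ) :
    ∑ i ∈ range (8 * j + r), (A i : L) * α ^ i =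
      ∑ i ∈ range (8 * j), (A i : L) * α ^ i + α ^ (8 * j) * ∑ i ∈ range r, (A i : L) * α ^ i := by
  rw [sum_range_add, mul_sum]
  congr 1
  refine sum_congr rfl fun i _ => ?_
  rw [A_add, pow_add]; ring

lemma five : (5 : L) = 0 := by
  have := CharP.cast_eq_zero L 5
  exact_mod_cast this

lemma block (j : ℕ) :
    (1 + α ^ 4) * ∑ i ∈ range (8 * j), (A i : L) * α ^ i - (1 + 2 * α + 2 * α ^ 2 + α ^ 3) =
      -(α ^ (8 * j) * (1 + 2 * α + 2 * α ^ 2 + α ^ 3)) := by
  have h5 : (5 : L) = 0 := five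
  induction j with
  | zero => simp
  | succ j ih =>
    rw [show 8 * (j + 1) = 8 * j + 8 by ring, sum8]
    have h8 : ∑ i ∈ range 8, (A i : L) * α ^ i =
        1 + 2 * α + 2 * α ^ 2 + α ^ 3 + 4 * α ^ 4 + 3 * α ^ 5 + 3 * α ^ 6 + 4 * α ^ 7 := by
      simp [sum_range_succ, A]
    rw [h8, pow_add]
    linear_combination ih + (α ^ (8 * j) * (1 + α ^ 4) * (α ^ 4 + α ^ 5 + α ^ 6 + α ^ 7)) * h5

lemma gen (hD : 1 + α ^ 4 ≠ 0) (h0 : α ≠ 0)
    (n0 : 1 + 2 * α + 2 * α ^ 2 + α ^ 3 ≠ 0)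
    (n1 : 2 + 2 * α + α ^ 2 - α ^ 3 ≠ 0)
    (n2 : 2 + α - α ^ 2 - 2 * α ^ 3 ≠ 0)
    (n3 : 1 - α - 2 * α ^ 2 - 2 * α ^ 3 ≠ 0) :
    ∃ c' : L, ∀ n : ℕ, c' + ∑ i ∈ range n, (A i : L) * α ^ i ≠ 0 := by
  have h5 : (5 : L) = 0 := five
  refine ⟨-(1 + 2 * α + 2 * α ^ 2 + α ^ 3) / (1 + α ^ 4), fun n h => ?_⟩
  have hp : α ^ (8 * (n / 8)) ≠ 0 := pow_ne_zero _ h0
  have hb := block α (n / 8)
  have hn : n = 8 * (n / 8) + n % 8 := (Nat.div_add_mod n 8).symm
  have hs : ∑ i ∈ range n, (A i : L) * α ^ i =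
      ∑ i ∈ range (8 * (n / 8)), (A i : L) * α ^ i +
        α ^ (8 * (n / 8)) * ∑ i ∈ range (n % 8), (A i : L) * α ^ i := by
    conv_lhs => rw [hn]
    exact sum8 α (n / 8) (n % 8)
  have h' : (1 + α ^ 4) * ∑ i ∈ range n, (A i : L) * α ^ i -
      (1 + 2 * α + 2 * α ^ 2 + α ^ 3) = 0 := by
    field_simp at h
    linear_combination h
  rw [hs] at h'
  have key : (1 + 2 * α + 2 * α ^ 2 + α ^ 3) -
      (1 + α ^ 4) * ∑ i ∈ range (n % 8), (A i : L) * α ^ i = 0 := by
    have : α ^ (8 * (n / 8)) * ((1 + 2 * α + 2 * α ^ 2 + α ^ 3) -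
      (1 + α ^ 4) * ∑ i ∈ range (n % 8), (A i : L) * α ^ i) = 0 := by
      linear_combination -h' + hb
    exact (mul_eq_zero.mp this).resolve_left hp
  have hr : n % 8 < 8 := Nat.mod_lt _ (by norm_num)
  generalize n % 8 = r at key hr
  interval_cases r
  · simp [sum_range_succ, A] at key
    exact n0 (by linear_combination key)
  · simp [sum_range_succ, A] at key
    have : α * (2 + 2 * α + α ^ 2 - α ^ 3) = 0 := by linear_combination key
    exact (mul_ne_zero h0 n1) this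
  · simp [sum_range_succ, A] at key
    have : α ^ 2 * (2 + α - α ^ 2 - 2 * α ^ 3) = 0 := by linear_combination key
    exact (mul_ne_zero (pow_ne_zero 2 h0) n2) this
  · simp [sum_range_succ, A] at key
    have : α ^ 3 * (1 - α - 2 * α ^ 2 - 2 * α ^ 3) = 0 := by linear_combination key
    exact (mul_ne_zero (pow_ne_zero 3 h0) n3) this
  · simp [sum_range_succ, A] at key
    have : α ^ 4 * (1 + 2 * α + 2 * α ^ 2 + α ^ 3) = 0 := by linear_combination -key
    exact (mul_ne_zero (pow_ne_zero 4 h0) n0) this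
  · simp [sum_range_succ, A] at key
    have : α ^ 4 * (α * (2 + 2 * α + α ^ 2 - α ^ 3)) = 0 := by
      linear_combination -key - (α ^ 4 * (1 + α ^ 4)) * h5
    exact (mul_ne_zero (pow_ne_zero 4 h0) (mul_ne_zero h0 n1)) this
  · simp [sum_range_succ, A] at key
    have : α ^ 4 * (α ^ 2 * (2 + α - α ^ 2 - 2 * α ^ 3)) = 0 := by
      linear_combination -key - ((α ^ 4 + α ^ 5) * (1 + α ^ 4)) * h5
    exact (mul_ne_zero (pow_ne_zero 4 h0) (mul_ne_zero (pow_ne_zero 2 h0) n2)) this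
  · simp [sum_range_succ, A] at key
    have : α ^ 4 * (α ^ 3 * (1 - α - 2 * α ^ 2 - 2 * α ^ 3)) = 0 := by
      linear_combination -key - ((α ^ 4 + α ^ 5 + α ^ 6) * (1 + α ^ 4)) * h5
    exact (mul_ne_zero (pow_ne_zero 4 h0) (mul_ne_zero (pow_ne_zero 3 h0) n3)) this

end generic

set_option maxRecDepth 20000 in
lemma all {L : Type v} [Field L] [CharP L 5] (α : L) (h0 : α ≠ 0) :
    ∃ c' : L, ∀ n : ℕ, c' + ∑ i ∈ range n, (A i : L) * α ^ i ≠ 0 := by
  have h5 : (5 : L) = 0 := five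
  have k2 : ZMod.castHom (dvd_refl 5) L 2 = 2 := map_ofNat _ 2
  have k3 : ZMod.castHom (dvd_refl 5) L 3 = 3 := map_ofNat _ 3
  have k4 : ZMod.castHom (dvd_refl 5) L 4 = 4 := map_ofNat _ 4
  by_cases a1 : α ^ 2 + 2 = 0
  · exact quad α 0 2 40 (0, 1) (by norm_num) (by norm_num) (by decide) (by decide) (by decide)
      (by rw [k2, map_zero]; linear_combination a1)
  by_cases a2 : α ^ 2 + 3 = 0
  · exact quad α 0 3 40 (1, 0) (by norm_num) (by norm_num) (by decide) (by decide) (by decide)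
      (by rw [k3, map_zero]; linear_combination a2)
  by_cases a3 : α ^ 2 + α + 1 = 0
  · exact quad α 1 1 24 (2, 0) (by norm_num) (by norm_num) (by decide) (by decide) (by decide)
      (by rw [map_one]; linear_combination a3)
  by_cases a4 : α ^ 2 + 2 * α + 4 = 0
  · exact quad α 2 4 24 (1, 0) (by norm_num) (by norm_num) (by decide) (by decide) (by decide)
      (by rw [k2, k4]; linear_combination a4)
  by_cases a5 : α ^ 2 + 4 * α + 1 = 0
  · exact quad α 4 1 24 (0, 1) (by norm_num) (by norm_num) (by decide) (by decide) (by decide)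
      (by rw [k4, map_one]; linear_combination a5)
  by_cases a6 : α ^ 2 + 3 * α + 4 = 0
  · exact quad α 3 4 24 (1, 0) (by norm_num) (by norm_num) (by decide) (by decide) (by decide)
      (by rw [k3, k4]; linear_combination a6)
  by_cases b1 : α = 1
  · have := lin (L := L) 1 (by decide)
    rw [map_one] at this; rw [b1]; exact this
  by_cases b2 : α = 2
  · have := lin (L := L) 2 (by decide)
    rw [k2] at this; rw [b2]; exact this
  by_cases b3 : α = 3
  · have := lin (L := L) 3 (by decide)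
    rw [k3] at this; rw [b3]; exact this
  by_cases b4 : α = 4
  · have := lin (L := L) 4 (by decide)
    rw [k4] at this; rw [b4]; exact this
  have c1 : α - 1 ≠ 0 := sub_ne_zero.mpr b1
  have c2 : α - 2 ≠ 0 := sub_ne_zero.mpr b2
  have c3 : α - 3 ≠ 0 := sub_ne_zero.mpr b3
  have c4 : α - 4 ≠ 0 := sub_ne_zero.mpr b4
  refine gen α ?_ h0 ?_ ?_ ?_ ?_
  · intro h
    exact (mul_ne_zero a1 a2) (by linear_combination h + (α ^ 2 + 1) * h5)
  · intro h
    exact (mul_ne_zero c4 a3) (by linear_combination h + (-(α ^ 2) - α - 1) * h5)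
  · intro h
    exact (mul_ne_zero c3 a4) (by linear_combination -h - 2 * h5)
  · intro h
    exact (mul_ne_zero c1 a5) (by linear_combination 2 * h + (α ^ 3 + α ^ 2 - α - 1) * h5)
  · intro h
    exact (mul_ne_zero c2 a6) (by linear_combination 2 * h + (α ^ 3 + α ^ 2 - 2) * h5)

end D60

theorem rowD60 : StD.{v} := by
  intro F _ hF
  have : Fact (Nat.Prime 5) := ⟨by norm_num⟩
  have : Finite F := Nat.finite_of_card_ne_zero (by rw [hF]; norm_num)
  haveI : Fintype F := Fintype.ofFinite F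
  have hc : Fintype.card F = 5 := by rw [← Nat.card_eq_fintype_card, hF]
  have h5F : ((5 : ℕ) : F) = 0 := by
    rw [← hc]; exact FiniteField.cast_card_eq_zero F
  have : CharP F 5 := by
    refine (CharP.charP_iff_prime_eq_zero (by norm_num)).mpr h5F
  refine ⟨fun i => (D60.A i : F), ?_, ?_⟩
  · intro i h
    have h1 : (5 : ℕ) ∣ D60.A i := (CharP.cast_eq_zero_iff F 5 _).mp h
    have h2 : ∀ r < 8, ¬ 5 ∣ D60.A r := by decide
    have h3 : D60.A i = D60.A (i % 8) := by
      conv_lhs => rw [← Nat.div_add_mod i 8]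
      exact D60.A_add _ _
    rw [h3] at h1
    exact h2 _ (Nat.mod_lt _ (by norm_num)) h1
  · intro L _ _ α h0
    have : CharP L 5 := charP_of_injective_algebraMap (algebraMap F L).injective 5
    obtain ⟨c, hc'⟩ := D60.all α h0
    refine ⟨c, fun n => ?_⟩
    have := hc' n
    simpa [map_natCast] using this

end Pool.Agent.Lib.MP_5f5f24_nt.NB
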