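import Pool.Agent.Lib.MP_5f5f24_nt.NB.Defs26

/-! Row G (helper4). -/

set_option autoImplicit false

namespace Pool.Agent.Lib.MP_5f5f24_nt.NB

universe v

theorem rowG4 : StG.{v} := by
  intro hA hB hC hD F _ _ h4
  classical
  have : Fintype F := Fintype.ofFinite F
  rw [Nat.card_eq_fintype_card] at h4
  by_cases hb : ∃ b : F, ∀ n : ℕ, b ≠ (n : F)
  · obtain ⟨b, hb⟩ := hb
    exact hA F b hb
  push Not at hb
  obtain ⟨p, hp⟩ := CharP.exists F
  have := hp
  obtain ⟨n, hpp, hcard⟩ := FiniteField.card F p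
  have : Fact p.Prime := ⟨hpp⟩
  have hle : Fintype.card F ≤ p := by
    have hs : Function.Surjective (fun i : Fin p => ((i : ℕ) : F)) := by
      intro b
      obtain ⟨m, hm⟩ := hb b
      refine ⟨⟨m % p, Nat.mod_lt _ hpp.pos⟩, ?_⟩
      rw [hm]
      exact (CharP.cast_eq_mod F p m).symm
    simpa using Fintype.card_le_of_surjective _ hs
  have hq : Fintype.card F = p := by
    refine le_antisymm hle ?_
    rw [hcard]
    exact Nat.le_self_pow n.ne_zero p
  by_cases h5 : p = 5
  · exact hD F (by rw [Nat.card_eq_fintype_card, hq, h5])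
  have hp4 : p ≠ 4 := by
    rintro rfl
    exact absurd hpp (by norm_num)
  have hp6 : 6 ≤ p := by omega
  have hodd : p % 2 = 1 := hpp.eq_two_or_odd.resolve_left (by omega)
  have h2 : (2 : F) ≠ 0 := by
    intro h
    have h1 := (CharP.cast_eq_zero_iff F p 2).1 (by exact_mod_cast h)
    have h3 := Nat.le_of_dvd (by norm_num) h1
    omega
  obtain ⟨e, m, hm, he⟩ := Nat.exists_eq_two_pow_mul_odd (n := p - 1) (by omega)
  by_cases hm1 : m = 1
  · subst hm1
    rw [mul_one] at he
    have h3 : (3 : F) ≠ 0 := by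
      intro h
      have h1 := (CharP.cast_eq_zero_iff F p 3).1 (by exact_mod_cast h)
      have h3 := Nat.le_of_dvd (by norm_num) h1
      omega
    have he3 : 3 ≤ e := by
      by_contra hcon
      have h1 : 2 ^ e ≤ 2 ^ 2 := Nat.pow_le_pow_right (by norm_num) (by omega)
      omega
    have h8 : p % 8 = 1 := by
      obtain ⟨d, rfl⟩ := Nat.exists_eq_add_of_le he3
      have h1 : p - 1 = 8 * 2 ^ d := by rw [he, pow_add]; norm_num
      omega
    obtain ⟨c, hc⟩ := FiniteField.exists_nonsquare (F := F) (by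
      intro h
      have h1 : ringChar F = p := ringChar.eq F p
      omega)
    refine hC F c h2 h3 ?_ ?_ ?_ hc
    · intro x hx
      have hx3 : x ^ 3 = 1 := by linear_combination (x - 1) * hx
      have hx0 : x ≠ 0 := by
        rintro rfl
        simp at hx
      have hxe : x ^ (2 ^ e) = 1 := by
        rw [← he, ← hq]
        exact FiniteField.pow_card_sub_one_eq_one x hx0
      have h1 : orderOf x ∣ 3 := orderOf_dvd_of_pow_eq_one hx3
      have h5 : orderOf x ∣ 2 ^ e := orderOf_dvd_of_pow_eq_one hxe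
      have hcop : Nat.Coprime 3 (2 ^ e) := Nat.Coprime.pow_right e (by norm_num)
      have h6 : orderOf x = 1 := Nat.eq_one_of_dvd_coprimes hcop h1 h5
      have h7 : x = 1 := orderOf_eq_one_iff.1 h6
      rw [h7] at hx
      apply h3
      linear_combination hx
    · rw [FiniteField.isSquare_neg_one_iff, hq]
      omega
    · rw [FiniteField.isSquare_two_iff, hq]
      omega
  · obtain ⟨g, hg⟩ := IsCyclic.exists_generator (α := Fˣ)
    have ho : orderOf g = p - 1 := by
      rw [orderOf_eq_card_of_forall_mem_zpowers hg, Nat.card_units, Nat.card_eq_fintype_card, hq]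
    have key : ∀ a b : ℤ, g ^ a = g ^ b → ((p - 1 : ℕ) : ℤ) ∣ a - b := by
      intro a b hab
      rw [← ho, orderOf_dvd_iff_zpow_eq_one, zpow_sub, hab, mul_inv_cancel]
    have hmd : (m : ℤ) ∣ ((p - 1 : ℕ) : ℤ) := by
      rw [he]
      exact_mod_cast Dvd.intro_left _ rfl
    have h2d : (2 : ℤ) ∣ ((p - 1 : ℕ) : ℤ) := by
      have : 2 ∣ p - 1 := by omega
      exact_mod_cast this
    refine hB F ((g ^ m : Fˣ) : F) (g : F) h2 (Units.ne_zero _) ?_ (Units.ne_zero _) ?_
    · rintro ⟨r, hr⟩
      have hr0 : r ≠ 0 := by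
        rintro rfl
        rw [mul_zero] at hr
        exact Units.ne_zero _ hr
      obtain ⟨k, hk⟩ := hg (Units.mk0 r hr0)
      have h1 : g ^ (m : ℤ) = g ^ (2 * k) := by
        apply Units.ext
        rw [zpow_natCast, hr, two_mul, zpow_add, Units.val_mul]
        have h3 : ((g ^ k : Fˣ) : F) = r := by
          have := congrArg (fun u : Fˣ => (u : F)) hk
          simpa using this
        rw [h3]
      have h3 := h2d.trans (key _ _ h1)
      obtain ⟨s, hs⟩ := hm
      omega
    · intro j hj
      have h1 : g ^ (1 : ℤ) = g ^ ((m : ℤ) * j) := by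
        apply Units.ext
        rw [zpow_one, hj, zpow_mul, zpow_natCast]
        push_cast
        rfl
      have h3 := hmd.trans (key _ _ h1)
      have h4 : (m : ℤ) ∣ 1 := by
        have h5 : (m : ℤ) ∣ (m : ℤ) * j := Dvd.intro _ rfl
        have h6 := dvd_add h3 h5
        simpa using h6
      have h7 : m ∣ 1 := by exact_mod_cast h4
      exact hm1 (Nat.dvd_one.1 h7)

end Pool.Agent.Lib.MP_5f5f24_nt.NB
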