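import Pool.Agent.Lib.MP_5f5f24_nt.NB.Defs26

/-! Row NEG: two or three elements (helper27). -/

set_option autoImplicit false

namespace Pool.Agent.Lib.MP_5f5f24_nt.NB

open Finset Polynomial

universe v

theorem rowNeg27 : StNeg.{v} := by
  intro F _ _ hF u hu N
  classical
  have := Fintype.ofFinite F
  have hc : Nat.card F = Fintype.card F := Nat.card_eq_fintype_card
  have h1 : 1 < Fintype.card F := Fintype.one_lt_card
  have hev : ∀ (n : ℕ) (x : F), (∑ i ∈ range (n + 1), C (u i) * X ^ i : F[X]).eval x =
      ∑ i ∈ range (n + 1), u i * x ^ i := by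
    intro n x
    simp [eval_finsetSum]
  have hcast : ((Fintype.card F : ℕ) : F) = 0 := FiniteField.cast_card_eq_zero F
  rcases (by omega : Fintype.card F = 2 ∨ Fintype.card F = 3) with h2 | h3
  · rw [h2] at hcast
    have e3 : ∀ x : F, x ≠ 0 → x = 1 := by
      intro x hx
      have hp := FiniteField.pow_card x
      rw [h2] at hp
      have h : x * (x - 1) = 0 := by linear_combination hp
      rcases mul_eq_zero.1 h with h | h
      · exact absurd h hx
      · exact sub_eq_zero.1 h
    refine ⟨2 * N + 1, by omega, 1, ?_⟩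
    rw [hev]
    have e4 : ∀ i ∈ range (2 * N + 1 + 1), u i * (1 : F) ^ i = 1 := by
      intro i _
      rw [e3 (u i) (hu i), one_pow, one_mul]
    rw [Finset.sum_congr rfl e4, Finset.sum_const, Finset.card_range, nsmul_eq_mul, mul_one]
    push_cast at hcast ⊢
    linear_combination ((N : F) + 1) * hcast
  · rw [h3] at hcast
    have T : (3 : F) = 0 := by exact_mod_cast hcast
    have hsq : ∀ x : F, x ≠ 0 → x ^ 2 = 1 := by
      intro x hx
      have hp := FiniteField.pow_card x
      rw [h3] at hp
      have h : x * (x ^ 2 - 1) = 0 := by linear_combination hp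
      rcases mul_eq_zero.1 h with h | h
      · exact absurd h hx
      · exact sub_eq_zero.1 h
    have key : ∀ z e : F, z ≠ 0 → e ≠ 0 → z + e ≠ 0 → e = z := by
      intro z e hz he hze
      have A := hsq z hz
      have B := hsq e he
      have D := hsq (z + e) hze
      linear_combination e * T - z * (D - A - B) + 2 * e * A
    by_contra hno
    push Not at hno
    have hz : ∀ n, N ≤ n → ∑ i ∈ range (n + 1), u i ≠ 0 := by
      intro n hn h
      apply hno n hn 1
      rw [hev]
      simpa using h
    have hw : ∀ n, N ≤ n → ∑ i ∈ range (n + 1), u i * (-1 : F) ^ i ≠ 0 := by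
      intro n hn h
      apply hno n hn (-1)
      rw [hev]
      exact h
    have hz0 := hz N le_rfl
    have hz1 := hz (N + 1) (by omega)
    have hz2 := hz (N + 2) (by omega)
    have hw0 := hw N le_rfl
    have hw1 := hw (N + 1) (by omega)
    have hw2 := hw (N + 2) (by omega)
    rw [Finset.sum_range_succ _ (N + 1)] at hz1 hw1
    rw [Finset.sum_range_succ _ (N + 2), Finset.sum_range_succ _ (N + 1)] at hz2 hw2
    set z := ∑ i ∈ range (N + 1), u i
    set w := ∑ i ∈ range (N + 1), u i * (-1 : F) ^ i
    have k1 := key z (u (N + 1)) hz0 (hu _) hz1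
    have k2 := key (z + u (N + 1)) (u (N + 2)) hz1 (hu _) hz2
    have hε : u (N + 1) * (-1 : F) ^ (N + 1) ≠ 0 :=
      mul_ne_zero (hu _) (pow_ne_zero _ (neg_ne_zero.2 one_ne_zero))
    have k3 := key w _ hw0 hε hw1
    apply hw2
    have e5 : (-1 : F) ^ (N + 2) = -(-1 : F) ^ (N + 1) := by
      rw [pow_succ]; ring
    rw [k2, e5, k1]
    rw [k1] at k3
    linear_combination -k3

end Pool.Agent.Lib.MP_5f5f24_nt.NB
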