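import Pool.Agent.Lib.MP_5f5f24_nt.NB.Core26
import Pool.Agent.Lib.MP_5f5f24_nt.NB.A94
import Pool.Agent.Lib.MP_5f5f24_nt.NB.B94
import Pool.Agent.Lib.MP_5f5f24_nt.NB.C97
import Pool.Agent.Lib.MP_5f5f24_nt.NB.D60
import Pool.Agent.Lib.MP_5f5f24_nt.NB.G4
import Pool.Agent.Lib.MP_5f5f24_nt.NB.Neg27

/-! Assembly of the rows (helper26; rows by helpers 26, 94, 97, 60, 4, 27) -/

set_option autoImplicit false

namespace Pool.Agent.Lib.MP_5f5f24_nt.NB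

open Finset Polynomial

universe v

theorem allNB (F : Type v) [Field F] [Finite F] (h4 : 4 ≤ Nat.card F) : NoBdd F :=
  rowCore26 F (by omega) (rowG4 rowA94 rowB94 rowC97 rowD60 F h4)

theorem allNeg (F : Type v) [Field F] [Finite F] (h3 : Nat.card F ≤ 3) (u : ℕ → F)
    (hu : ∀ i, u i ≠ 0) (N : ℕ) : ∃ n : ℕ, N ≤ n ∧ ∃ x : F,
      (∑ i ∈ range (n + 1), C (u i) * X ^ i : F[X]).eval x = 0 :=
  rowNeg27 F h3 u hu N

end Pool.Agent.Lib.MP_5f5f24_nt.NB
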