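import Mathlib
import Pool.Agent.Lib.MP_5f5f24_nt.NB.Defs26

/-! Row B (38). -/

set_option autoImplicit false

namespace Pool.Agent.Lib.MP_5f5f24_nt.NB

open Finset Polynomial

universe v

theorem rowB38 : StB.{v} := by
  intro F _ κ C h2 hκ hsq hC0 hC
  refine ⟨fun i => κ ^ (i / 2), fun i => pow_ne_zero _ hκ, fun L _ _ α hα => ?_⟩
  set K : L := algebraMap F L κ with hK
  set s : ℕ → L := fun n => ∑ i ∈ range n, algebraMap F L (κ ^ (i / 2)) * α ^ i with hs
  have hK0 : K ≠ 0 := by
    rw [hK, Ne, map_eq_zero]
    exact hκ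
  have hodd : ∀ j, s (2 * j + 1) = s (2 * j) + (K * α ^ 2) ^ j := by
    intro j
    simp only [hs]
    rw [sum_range_succ, map_pow, Nat.mul_div_cancel_left j (by norm_num), mul_pow, ← pow_mul]
  have heven : ∀ j, s (2 * (j + 1)) = s (2 * j) + (1 + α) * (K * α ^ 2) ^ j := by
    intro j
    have h1 : 2 * (j + 1) = 2 * j + 1 + 1 := by ring
    have h3 : s (2 * j + 1 + 1) = s (2 * j + 1) + K ^ j * α ^ (2 * j + 1) := by
      simp only [hs]
      rw [sum_range_succ, map_pow]
      have : (2 * j + 1) / 2 = j := by omega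
      rw [this]
    rw [h1, h3, hodd]
    rw [mul_pow, ← pow_mul]
    ring
  have h00 : s (2 * 0) = 0 := by simp [hs]
  have hgeo : ∀ j, (K * α ^ 2 - 1) * s (2 * j) = (1 + α) * ((K * α ^ 2) ^ j - 1) := by
    intro j
    induction j with
    | zero => rw [h00, pow_zero]; ring
    | succ j ih =>
      rw [heven, mul_add, ih]
      ring
  suffices H : ∃ c : L, ∀ j, c + s (2 * j) ≠ 0 ∧ c + s (2 * j + 1) ≠ 0 by
    obtain ⟨c, hc⟩ := H
    refine ⟨c, fun n => ?_⟩
    obtain ⟨j, rfl | rfl⟩ := Nat.even_or_odd' n
    · exact (hc j).1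
    · exact (hc j).2
  have hinj : Function.Injective (algebraMap F L) := (algebraMap F L).injective
  by_cases c1 : α = -1
  · have hz : ∀ j, s (2 * j) = 0 := by
      intro j
      induction j with
      | zero => exact h00
      | succ j ih => rw [heven, ih, c1]; ring
    refine ⟨algebraMap F L (-C), fun j => ⟨?_, ?_⟩⟩
    · rw [hz, add_zero, Ne, map_eq_zero, neg_eq_zero]
      exact hC0
    · rw [hodd, hz, zero_add, c1]
      have h3 : K * (-1) ^ 2 = K := by ring
      rw [h3, hK, ← map_pow, ← map_add, Ne, map_eq_zero]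
      intro h
      apply hC j
      rw [zpow_natCast]
      linear_combination -h
  by_cases c2 : K * α = -1
  · have hb : K * α ^ 2 = -α := by
      linear_combination α * c2
    have hαK : α = -K⁻¹ := by
      field_simp
      linear_combination c2
    have hne : K * α ^ 2 - 1 ≠ 0 := by
      rw [hb]
      intro h
      apply c1
      linear_combination -h
    have hz : ∀ j, s (2 * j) = 1 - (K * α ^ 2) ^ j := by
      intro j
      have h4 := hgeo j
      apply mul_left_cancel₀ hne
      rw [h4]
      rw [hb]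
      ring
    have hb2 : K * α ^ 2 = algebraMap F L (κ⁻¹) := by
      rw [hb, hαK, neg_neg, hK, map_inv₀]
    refine ⟨algebraMap F L (C - 1), fun j => ⟨?_, ?_⟩⟩
    · rw [hz, hb2, ← map_pow, ← map_one (algebraMap F L), ← map_sub, ← map_add, Ne, map_eq_zero]
      intro h
      apply hC (-(j : ℤ))
      rw [zpow_neg, zpow_natCast, ← inv_pow]
      linear_combination h
    · rw [hodd, hz, sub_add_cancel, ← map_one (algebraMap F L), ← map_add, Ne, map_eq_zero]
      intro h
      apply hC0
      linear_combination h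
  by_cases c3 : K * α ^ 2 = 1
  · have hz : ∀ j : ℕ, s (2 * j) = j * (1 + α) := by
      intro j
      induction j with
      | zero => rw [h00]; simp
      | succ j ih => rw [heven, ih, c3]; push_cast; ring
    have hnot : ∀ x : F, α ≠ algebraMap F L x := by
      intro x hx
      apply hsq
      rw [hx, hK, ← map_pow, ← map_mul, ← map_one (algebraMap F L)] at c3
      have h5 := hinj c3
      have hx0 : x ≠ 0 := by
        rintro rfl
        simp at h5
      refine ⟨x⁻¹, ?_⟩
      field_simp
      linear_combination h5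
    have hne : ∀ (t : F) (j : ℕ), t ≠ 0 → algebraMap F L t + j * (1 + α) ≠ 0 := by
      intro t j ht h
      by_cases hj : (j : F) = 0
      · have hjL : (j : L) = 0 := by
          rw [← map_natCast (algebraMap F L), hj, map_zero]
        rw [hjL, zero_mul, add_zero, map_eq_zero] at h
        exact ht h
      · apply hnot (-(t + j) / j)
        have hjL : (j : L) ≠ 0 := by
          rw [← map_natCast (algebraMap F L), Ne, map_eq_zero]
          exact hj
        rw [map_div₀, map_neg, map_add, map_natCast]
        field_simp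
        linear_combination h
    refine ⟨1, fun j => ⟨?_, ?_⟩⟩
    · rw [hz]
      have := hne 1 j one_ne_zero
      rw [map_one] at this
      exact this
    · rw [hodd, hz, c3, one_pow]
      have := hne 2 j h2
      rw [map_ofNat] at this
      intro h
      apply this
      linear_combination h
  · have hne : K * α ^ 2 - 1 ≠ 0 := sub_ne_zero.2 c3
    have hb0 : K * α ^ 2 ≠ 0 := mul_ne_zero hK0 (pow_ne_zero _ hα)
    have hz : ∀ j, s (2 * j) = (1 + α) * ((K * α ^ 2) ^ j - 1) / (K * α ^ 2 - 1) := by
      intro j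
      rw [eq_div_iff hne, mul_comm, hgeo j]
    have h1a : 1 + α ≠ 0 := by
      intro h
      apply c1
      linear_combination h
    have h1b : 1 + K * α ≠ 0 := by
      intro h
      apply c2
      linear_combination h
    refine ⟨(1 + α) / (K * α ^ 2 - 1), fun j => ⟨?_, ?_⟩⟩
    · rw [hz]
      have : (1 + α) / (K * α ^ 2 - 1) + (1 + α) * ((K * α ^ 2) ^ j - 1) / (K * α ^ 2 - 1) =
          (1 + α) * (K * α ^ 2) ^ j / (K * α ^ 2 - 1) := by
        rw [← add_div]
        ring
      rw [this]
      exact div_ne_zero (mul_ne_zero h1a (pow_ne_zero _ hb0)) hne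
    · rw [hodd, hz]
      have : (1 + α) / (K * α ^ 2 - 1) + ((1 + α) * ((K * α ^ 2) ^ j - 1) / (K * α ^ 2 - 1) +
          (K * α ^ 2) ^ j) = (K * α ^ 2) ^ j * (α * (1 + K * α)) / (K * α ^ 2 - 1) := by
        rw [← add_assoc, ← add_div, div_add' _ _ _ hne, div_left_inj' hne]
        ring
      rw [this]
      exact div_ne_zero (mul_ne_zero (pow_ne_zero _ hb0) (mul_ne_zero hα h1b)) hne

end Pool.Agent.Lib.MP_5f5f24_nt.NB
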