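import Pool.Agent.Lib.MP_5f5f24_nt.NB.Defs26

/-! Row C (helper13): the tail `1, 1, -2, 1, 1, -2, ...`. -/

set_option autoImplicit false

namespace Pool.Agent.Lib.MP_5f5f24_nt.NB

open Finset

universe v

namespace C13

/-- the sequence -/
def a3 (F : Type v) [Field F] (i : ℕ) : F := if i % 3 = 2 then -2 else 1

/-- the sums of the first terms -/
noncomputable def S (F : Type v) [Field F] {L : Type v} [Field L] [Algebra F L] (α : L)
    (n : ℕ) : L := ∑ i ∈ range n, algebraMap F L (a3 F i) * α ^ i

section
variable {F : Type v} [Field F] {L : Type v} [Field L] [Algebra F L]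

lemma S1 (α : L) (j : ℕ) : S F α (3 * j + 1) = S F α (3 * j) + α ^ (3 * j) := by
  unfold S
  rw [sum_range_succ]
  have : (3 * j) % 3 ≠ 2 := by omega
  simp [a3, this]

lemma S2 (α : L) (j : ℕ) : S F α (3 * j + 2) = S F α (3 * j) + α ^ (3 * j) * (1 + α) := by
  have h : S F α (3 * j + 1 + 1) = S F α (3 * j + 1) + α ^ (3 * j + 1) := by
    unfold S
    rw [sum_range_succ]
    have : (3 * j + 1) % 3 ≠ 2 := by omega
    have ha : a3 F (3 * j + 1) = 1 := if_neg this
    rw [ha, map_one, one_mul]
  have e : 3 * j + 2 = 3 * j + 1 + 1 := by ring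
  rw [e, h, S1]
  ring

lemma S3 (α : L) (j : ℕ) :
    S F α (3 * (j + 1)) = S F α (3 * j) + α ^ (3 * j) * (1 + α - 2 * α ^ 2) := by
  have h : S F α (3 * j + 2 + 1) = S F α (3 * j + 2) - 2 * α ^ (3 * j + 2) := by
    unfold S
    rw [sum_range_succ]
    have : (3 * j + 2) % 3 = 2 := by omega
    have ha : a3 F (3 * j + 2) = -2 := if_pos this
    rw [ha, map_neg, map_ofNat]
    ring
  have e : 3 * (j + 1) = 3 * j + 2 + 1 := by ring
  rw [e, h, S2]
  ring

lemma key (α c : L) (h0 : ∀ j, c + S F α (3 * j) ≠ 0)
    (h1 : ∀ j, c + (S F α (3 * j) + α ^ (3 * j)) ≠ 0)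
    (h2 : ∀ j, c + (S F α (3 * j) + α ^ (3 * j) * (1 + α)) ≠ 0) : ∀ n, c + S F α n ≠ 0 := by
  intro n
  obtain ⟨j, hj⟩ : ∃ j, n = 3 * j ∨ n = 3 * j + 1 ∨ n = 3 * j + 2 := ⟨n / 3, by omega⟩
  rcases hj with rfl | rfl | rfl
  · exact h0 j
  · rw [S1]
    exact h1 j
  · rw [S2]
    exact h2 j

lemma closed (α : L) (hD : 1 + α + α ^ 2 ≠ 0) (j : ℕ) :
    S F α (3 * j) = (1 + 2 * α) * (1 - α ^ (3 * j)) / (1 + α + α ^ 2) := by
  induction j with
  | zero => simp [S]
  | succ j ih =>
    rw [S3, ih, show 3 * (j + 1) = 3 * j + 3 by ring, pow_add]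
    field_simp
    ring

lemma closed0 (α : L) (hD : 1 + α + α ^ 2 = 0) (j : ℕ) :
    S F α (3 * j) = 3 * (j : L) * (1 + α) := by
  induction j with
  | zero => simp [S]
  | succ j ih =>
    have h3 : α ^ 3 = 1 := by linear_combination (α - 1) * hD
    have h3j : α ^ (3 * j) = 1 := by rw [pow_mul, h3, one_pow]
    rw [S3, ih, h3j]
    push_cast
    linear_combination (-2) * hD

end

end C13

open C13 in
theorem rowC13 : StC.{v} := by
  intro F _ C h2 h3 hω hm1 hs2 hC
  refine ⟨a3 F, fun i => ?_, ?_⟩
  · unfold a3
    split_ifs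
    · exact neg_ne_zero.mpr h2
    · exact one_ne_zero
  intro L _ _ α hα
  have hinj : Function.Injective (algebraMap F L) := (algebraMap F L).injective
  have ne0 : ∀ x : F, x ≠ 0 → algebraMap F L x ≠ 0 := fun x hx h =>
    hx (hinj (by rw [h, map_zero]))
  have h2' : (2 : L) ≠ 0 := by
    have := ne0 2 h2
    rwa [map_ofNat] at this
  have h3' : (3 : L) ≠ 0 := by
    have := ne0 3 h3
    rwa [map_ofNat] at this
  have hC0 : C ≠ 0 := by
    rintro rfl
    exact hC (IsSquare.zero)
  -- squares
  have sqadd : ∀ x : F, IsSquare x → C + x ≠ 0 := by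
    intro x hx h
    apply hC
    have : C = (-1) * x := by linear_combination h
    rw [this]
    exact hm1.mul hx
  have sqsub : ∀ x : F, IsSquare x → C - x ≠ 0 := by
    intro x hx h
    apply hC
    have : C = x := by linear_combination h
    rw [this]
    exact hx
  have hm2 : IsSquare (-2 : F) := by
    have := hm1.mul hs2
    have e : (-1 : F) * 2 = -2 := by ring
    rwa [e] at this
  have hmh : IsSquare (-2⁻¹ : F) := by
    obtain ⟨s, hs⟩ := hm2
    refine ⟨s * 2⁻¹, ?_⟩
    have : s * 2⁻¹ * (s * 2⁻¹) = (s * s) * (2⁻¹ * 2⁻¹) := by ring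
    rw [this, ← hs]
    field_simp
  show ∃ c : L, ∀ n : ℕ, c + S F α n ≠ 0
  by_cases hD : 1 + α + α ^ 2 = 0
  · -- D = 0
    have hnot : ∀ x : F, algebraMap F L x ≠ α := by
      intro x hx
      apply hω x
      apply hinj
      rw [map_zero, map_add, map_add, map_pow, map_one, hx]
      linear_combination hD
    have hlin : ∀ u w : F, (w = 0 → u ≠ 0) → algebraMap F L u + algebraMap F L w * α ≠ 0 := by
      intro u w huw h
      by_cases hw : w = 0
      · subst hw
        rw [map_zero, zero_mul, add_zero] at h
        exact ne0 u (huw rfl) h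
      · have hw' := ne0 w hw
        apply hnot (-u / w)
        rw [map_div₀, map_neg, div_eq_iff hw']
        linear_combination (-1) * h
    refine ⟨1, key α 1 (fun j => ?_) (fun j => ?_) (fun j => ?_)⟩
    · have := hlin (1 + 3 * (j : F)) (3 * (j : F)) (fun h => by rw [h, add_zero]; exact one_ne_zero)
      rw [closed0 α hD]
      convert this using 1
      simp only [map_add, map_mul, map_one, map_ofNat, map_natCast]
      ring
    · have := hlin (2 + 3 * (j : F)) (3 * (j : F)) (fun h => by rw [h, add_zero]; exact h2)
      rw [closed0 α hD]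
      have h3 : α ^ 3 = 1 := by linear_combination (α - 1) * hD
      have h3j : α ^ (3 * j) = 1 := by rw [pow_mul, h3, one_pow]
      rw [h3j]
      convert this using 1
      simp only [map_add, map_mul, map_ofNat, map_natCast]
      ring
    · have := hlin (2 + 3 * (j : F)) (1 + 3 * (j : F)) (fun h => by
        have : (2 : F) + 3 * (j : F) = 1 := by linear_combination h
        rw [this]; exact one_ne_zero)
      rw [closed0 α hD]
      have h3 : α ^ 3 = 1 := by linear_combination (α - 1) * hD
      have h3j : α ^ (3 * j) = 1 := by rw [pow_mul, h3, one_pow]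
      rw [h3j]
      convert this using 1
      simp only [map_add, map_mul, map_one, map_ofNat, map_natCast]
      ring
  · by_cases ha1 : α = 1
    · subst ha1
      refine ⟨1, key 1 1 (fun j => ?_) (fun j => ?_) (fun j => ?_)⟩
      · rw [closed 1 hD]
        simp
      · rw [closed 1 hD]
        have e : (1 : L) + 1 = 2 := by norm_num
        simp [e, h2']
      · rw [closed 1 hD]
        have e : (1 : L) + (1 + 1) = 3 := by norm_num
        simp only [one_pow, sub_self, mul_zero, zero_div, zero_add, one_mul]
        rw [e]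
        exact h3'
    · by_cases ha2 : α = -2
      · have hD3 : (1 : L) + α + α ^ 2 = 3 := by rw [ha2]; norm_num
        have hcl : ∀ j, S F α (3 * j) = α ^ (3 * j) - 1 := by
          intro j
          rw [closed α hD, hD3, div_eq_iff h3', ha2]
          ring
        have hal : α = algebraMap F L (-2) := by
          rw [ha2, map_neg, map_ofNat]
        have hp : ∀ k : ℕ, IsSquare ((-2 : F) ^ k) := fun k => hm2.pow k
        refine ⟨algebraMap F L C + 1, key α _ (fun j => ?_) (fun j => ?_) (fun j => ?_)⟩
        · rw [hcl]
          have := ne0 _ (sqadd _ (hp (3 * j)))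
          convert this using 1
          rw [map_add, map_pow, ← hal]
          ring
        · rw [hcl]
          have := ne0 _ (sqsub _ (hp (3 * j + 1)))
          convert this using 1
          rw [map_sub, map_pow, ← hal, pow_succ]
          rw [show (algebraMap F L C + 1 + (α ^ (3 * j) - 1 + α ^ (3 * j))) =
            algebraMap F L C - α ^ (3 * j) * (-2) by ring, ← ha2]
        · rw [hcl]
          have := ne0 _ hC0
          convert this using 1
          rw [show (algebraMap F L C + 1 + (α ^ (3 * j) - 1 + α ^ (3 * j) * (1 + α))) =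
            algebraMap F L C + α ^ (3 * j) * (2 + α) by ring, ha2]
          ring
      · by_cases ha3 : 1 + 2 * α = 0
        · have hcl : ∀ j, S F α (3 * j) = 0 := by
            intro j
            rw [closed α hD, ha3]
            simp
          have hal : α = algebraMap F L (-2⁻¹) := by
            rw [map_neg, map_inv₀, map_ofNat]
            field_simp
            linear_combination ha3
          have hp : ∀ k : ℕ, IsSquare ((-2⁻¹ : F) ^ k) := fun k => hmh.pow k
          refine ⟨algebraMap F L C, key α _ (fun j => ?_) (fun j => ?_) (fun j => ?_)⟩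
          · rw [hcl, add_zero]
            exact ne0 _ hC0
          · rw [hcl, zero_add]
            have := ne0 _ (sqadd _ (hp (3 * j)))
            convert this using 1
            rw [map_add, map_pow, ← hal]
          · rw [hcl, zero_add]
            have := ne0 _ (sqsub _ (hp (3 * j + 1)))
            convert this using 1
            rw [map_sub, map_pow, ← hal, pow_succ]
            linear_combination (α ^ (3 * j)) * ha3
        · -- generic
          refine ⟨-(1 + 2 * α) / (1 + α + α ^ 2), key α _ (fun j => ?_) (fun j => ?_)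
            (fun j => ?_)⟩
          · rw [closed α hD]
            have e : -(1 + 2 * α) / (1 + α + α ^ 2) +
                (1 + 2 * α) * (1 - α ^ (3 * j)) / (1 + α + α ^ 2) =
                -(α ^ (3 * j) * (1 + 2 * α)) / (1 + α + α ^ 2) := by
              field_simp
              ring
            rw [e]
            exact div_ne_zero (neg_ne_zero.mpr (mul_ne_zero (pow_ne_zero _ hα) ha3)) hD
          · rw [closed α hD]
            have e : -(1 + 2 * α) / (1 + α + α ^ 2) +
                ((1 + 2 * α) * (1 - α ^ (3 * j)) / (1 + α + α ^ 2) + α ^ (3 * j)) =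
                (α ^ (3 * j) * (α * (α - 1))) / (1 + α + α ^ 2) := by
              field_simp
              ring
            rw [e]
            exact div_ne_zero (mul_ne_zero (pow_ne_zero _ hα)
              (mul_ne_zero hα (sub_ne_zero.mpr ha1))) hD
          · rw [closed α hD]
            have e : -(1 + 2 * α) / (1 + α + α ^ 2) +
                ((1 + 2 * α) * (1 - α ^ (3 * j)) / (1 + α + α ^ 2) +
                  α ^ (3 * j) * (1 + α)) =
                (α ^ (3 * j) * (α ^ 2 * (α + 2))) / (1 + α + α ^ 2) := by
              field_simp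
              ring
            rw [e]
            refine div_ne_zero (mul_ne_zero (pow_ne_zero _ hα)
              (mul_ne_zero (pow_ne_zero _ hα) ?_)) hD
            intro h
            exact ha2 (by linear_combination h)

end Pool.Agent.Lib.MP_5f5f24_nt.NB
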