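import Pool.Agent.Lib.MP_5f5f24_nt.NB.Defs26

/-! Row CORE (helper26) -/

set_option autoImplicit false

namespace Pool.Agent.Lib.MP_5f5f24_nt.NB

open Finset Polynomial

universe v

namespace Core26

variable {F : Type v} [Field F]

/-- the order of a nonzero root -/
theorem root_pow [Finite F] {g : F[X]} (hg : Irreducible g) {K : ℕ} (hK : g.natDegree ≤ K)
    (h0 : ¬ g ∣ X) :
    (AdjoinRoot.root g) ^ (∏ k ∈ Finset.Icc 1 K, (Nat.card F ^ k - 1)) = 1 := by
  have hfact : Fact (Irreducible g) := ⟨hg⟩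
  have hne : g ≠ 0 := hg.ne_zero
  let pb := AdjoinRoot.powerBasis hne
  have hfin : Module.Finite F (AdjoinRoot g) := pb.finite
  have hfin2 : Finite (AdjoinRoot g) := Module.finite_of_finite F
  have hcard : Nat.card (AdjoinRoot g) = Nat.card F ^ g.natDegree := by
    rw [Module.natCard_eq_pow_finrank (K := F), pb.finrank]
    rfl
  have hroot : AdjoinRoot.root g ≠ 0 := by
    intro h
    apply h0
    rw [← AdjoinRoot.mk_eq_zero]
    exact h
  have h1 : (AdjoinRoot.root g) ^ (Nat.card F ^ g.natDegree - 1) = 1 := by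
    have := Fintype.ofFinite (AdjoinRoot g)
    have h2 := FiniteField.pow_card_sub_one_eq_one (AdjoinRoot.root g) hroot
    rwa [← Nat.card_eq_fintype_card, hcard] at h2
  have h3 : (Nat.card F ^ g.natDegree - 1) ∣ ∏ k ∈ Finset.Icc 1 K, (Nat.card F ^ k - 1) :=
    Finset.dvd_prod_of_mem (fun k => Nat.card F ^ k - 1)
      (Finset.mem_Icc.2 ⟨hg.natDegree_pos, hK⟩)
  obtain ⟨t, ht⟩ := h3
  rw [ht, pow_mul, h1, one_pow]

/-- monic irreducible polynomials of bounded degree, other than `X` -/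
abbrev Idx (F : Type v) [Field F] (K : ℕ) : Type v :=
  {g : F[X] // g.Monic ∧ Irreducible g ∧ g ≠ X ∧ g.natDegree ≤ K}

instance [Finite F] (K : ℕ) : Finite (Idx F K) := by
  refine Finite.of_injective (fun g : Idx F K => fun i : Fin (K + 1) => g.1.coeff i) ?_
  intro g h hgh
  apply Subtype.ext
  ext n
  rcases lt_or_ge n (K + 1) with hn | hn
  · exact congrFun hgh ⟨n, hn⟩
  · rw [coeff_eq_zero_of_natDegree_lt (lt_of_le_of_lt g.2.2.2.2 hn),
      coeff_eq_zero_of_natDegree_lt (lt_of_le_of_lt h.2.2.2.2 hn)]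

theorem not_dvd_X {g : F[X]} (h1 : g.Monic) (h2 : Irreducible g) (h3 : g ≠ X) : ¬ g ∣ X := by
  intro h
  exact h3 (eq_of_monic_of_associated h1 monic_X (h2.associated_of_dvd irreducible_X h))

theorem crt [Finite F] (K : ℕ) (x : Idx F K → F[X]) :
    ∃ r : F[X], ∀ g : Idx F K, AdjoinRoot.mk g.1 r = AdjoinRoot.mk g.1 (x g) := by
  have hco : Pairwise fun i j : Idx F K =>
      IsCoprime (Ideal.span {i.1}) (Ideal.span {j.1}) := by
    intro i j hij
    rw [Ideal.isCoprime_span_singleton_iff]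
    refine (i.2.2.1.coprime_iff_not_dvd).2 ?_
    intro h
    exact hij (Subtype.ext (eq_of_monic_of_associated i.2.1 j.2.1
      (i.2.2.1.associated_of_dvd j.2.2.1 h)))
  obtain ⟨r, hr⟩ := Ideal.exists_forall_sub_mem_ideal hco x
  refine ⟨r, fun g => ?_⟩
  have := hr g
  rw [Ideal.mem_span_singleton] at this
  rw [← sub_eq_zero, ← map_sub, AdjoinRoot.mk_eq_zero]
  exact this

theorem exists_split (h3 : 3 ≤ Nat.card F) (s : F) : ∃ x y : F, x ≠ 0 ∧ y ≠ 0 ∧ x + y = s := by
  classical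
  have hfin : Finite F := Nat.finite_of_card_ne_zero (by omega)
  have := Fintype.ofFinite F
  have h1 : ({0, s} : Finset F).card < (Finset.univ : Finset F).card := by
    rw [Finset.card_univ, ← Nat.card_eq_fintype_card]
    exact lt_of_le_of_lt Finset.card_le_two (by omega)
  obtain ⟨x, -, hx⟩ := Finset.exists_mem_notMem_of_card_lt_card h1
  rw [Finset.mem_insert, Finset.mem_singleton, not_or] at hx
  exact ⟨x, s - x, hx.1, sub_ne_zero.2 (Ne.symm hx.2), by ring⟩

end Core26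

open Core26 in
theorem rowCore26 : StCore.{v} := by
  intro F _ _ h3 hT K l w hw
  classical
  obtain ⟨a, ha, hP⟩ := hT
  -- targets
  have h1 : ∀ g : Idx F K, ∃ r : F[X], ∀ n : ℕ,
      AdjoinRoot.mk g.1 r + ∑ i ∈ range n,
        AdjoinRoot.mk g.1 (C (a i)) * AdjoinRoot.mk g.1 X ^ i ≠ 0 := by
    intro g
    have hfact : Fact (Irreducible g.1) := ⟨g.2.2.1⟩
    have hroot : AdjoinRoot.root g.1 ≠ 0 := by
      intro h
      apply not_dvd_X g.2.1 g.2.2.1 g.2.2.2.1
      rw [← AdjoinRoot.mk_eq_zero]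
      exact h
    obtain ⟨c, hc⟩ := hP (AdjoinRoot g.1) (AdjoinRoot.root g.1) hroot
    obtain ⟨r, rfl⟩ := AdjoinRoot.mk_surjective c
    refine ⟨r, fun n => ?_⟩
    exact hc n
  choose x hx using h1
  obtain ⟨r, hr⟩ := crt K x
  set T : ℕ := ∏ k ∈ Finset.Icc 1 K, (Nat.card F ^ k - 1) with hTdef
  have hTpos : 0 < T := by
    refine Finset.prod_pos (fun k hk => ?_)
    have hk1 : 1 ≤ k := (Finset.mem_Icc.1 hk).1
    have : Nat.card F ^ 1 ≤ Nat.card F ^ k := Nat.pow_le_pow_right (by omega) hk1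
    rw [pow_one] at this
    omega
  have hmon : (X ^ T - C 1 : F[X]).Monic := monic_X_pow_sub_C 1 hTpos.ne'
  have hdegT : (X ^ T - C 1 : F[X]).degree = T := degree_X_pow_sub_C hTpos 1
  -- reduction modulo X ^ T - 1
  have hred : ∀ p : F[X], ∀ g : Idx F K,
      ∑ i ∈ range T, AdjoinRoot.mk g.1 (C ((p %ₘ (X ^ T - C 1)).coeff i)) *
        AdjoinRoot.mk g.1 X ^ i = AdjoinRoot.mk g.1 p := by
    intro p g
    have hlt : (p %ₘ (X ^ T - C 1)).natDegree < T := by
      rcases eq_or_ne (p %ₘ (X ^ T - C 1)) 0 with h0 | h0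
      · rw [h0, natDegree_zero]; exact hTpos
      · rw [natDegree_lt_iff_degree_lt h0, ← hdegT]
        exact degree_modByMonic_lt p hmon
    have e1 : AdjoinRoot.mk g.1 (p %ₘ (X ^ T - C 1)) = AdjoinRoot.mk g.1 p := by
      have h5 := modByMonic_add_div p (X ^ T - C 1 : F[X])
      have h6 : AdjoinRoot.mk g.1 (X ^ T - C 1 : F[X]) = 0 := by
        have h7 := root_pow g.2.2.1 g.2.2.2.2 (not_dvd_X g.2.1 g.2.2.1 g.2.2.2.1)
        rw [← hTdef] at h7
        rw [map_sub, map_pow, map_one, map_one, AdjoinRoot.mk_X, h7, sub_self]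
      calc AdjoinRoot.mk g.1 (p %ₘ (X ^ T - C 1))
          = AdjoinRoot.mk g.1 (p %ₘ (X ^ T - C 1) + (X ^ T - C 1) * (p /ₘ (X ^ T - C 1))) := by
            rw [map_add, map_mul, h6, zero_mul, add_zero]
        _ = _ := by rw [h5]
    rw [← e1]
    conv_rhs => rw [as_sum_range' (p %ₘ (X ^ T - C 1)) T hlt]
    rw [map_sum]
    refine sum_congr rfl (fun i _ => ?_)
    rw [← C_mul_X_pow_eq_monomial, map_mul, map_pow]
  have hXT : ∀ g : Idx F K, AdjoinRoot.mk g.1 X ^ T = 1 := by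
    intro g
    exact root_pow g.2.2.1 g.2.2.2.2 (not_dvd_X g.2.1 g.2.2.1 g.2.2.2.1)
  -- the middle letters
  set W : F[X] := ∑ i ∈ range (l * T), C (w i) * X ^ i with hW
  have hsp : ∀ i : ℕ, ∃ y z : F, y ≠ 0 ∧ z ≠ 0 ∧
      y + z = (r %ₘ (X ^ T - C 1)).coeff i - (W %ₘ (X ^ T - C 1)).coeff i :=
    fun i => exists_split h3 _
  choose y z hy hz hyz using hsp
  let u : ℕ → F := fun j => if j < l * T then w j else if j < l * T + T then y (j - l * T) else
    if j < l * T + T + T then z (j - (l * T + T)) else a (j - (l * T + T + T))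
  have u1 : ∀ j, j < l * T → u j = w j := fun j hj => by simp only [u]; rw [if_pos hj]
  have u2 : ∀ j, j < T → u (l * T + j) = y j := fun j hj => by
    simp only [u]
    rw [if_neg (by omega), if_pos (by omega), Nat.add_sub_cancel_left]
  have u3 : ∀ j, j < T → u (l * T + T + j) = z j := fun j hj => by
    simp only [u]
    rw [if_neg (by omega), if_neg (by omega), if_pos (by omega), Nat.add_sub_cancel_left]
  have u4 : ∀ j, u (l * T + T + T + j) = a j := fun j => by
    simp only [u]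
    rw [if_neg (by omega), if_neg (by omega), if_neg (by omega), Nat.add_sub_cancel_left]
  have hu : ∀ j, u j ≠ 0 := by
    intro j
    simp only [u]
    split_ifs
    · exact hw _
    · exact hy _
    · exact hz _
    · exact ha _
  refine ⟨u, hu, ?_, l * T + T + T, ?_⟩
  · intro i hi
    exact u1 i (lt_of_lt_of_le hi (Nat.le_mul_of_pos_right l hTpos))
  intro n hn g hg hdvd
  by_contra hdeg
  have hdeg' : g.natDegree ≤ K := not_lt.1 hdeg
  have hlc : g.leadingCoeff⁻¹ ≠ 0 := inv_ne_zero (leadingCoeff_ne_zero.2 hg.ne_zero)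
  have hunit : IsUnit (C g.leadingCoeff⁻¹ : F[X]) := isUnit_C.2 (IsUnit.mk0 _ hlc)
  set G : F[X] := g * C g.leadingCoeff⁻¹ with hG
  have hGm : G.Monic := monic_mul_leadingCoeff_inv hg.ne_zero
  have hGi : Irreducible G := (irreducible_mul_isUnit hunit).2 hg
  have hGd : G.natDegree ≤ K := by rw [hG, natDegree_mul_C hlc]; exact hdeg'
  have hGdvd : G ∣ ∑ i ∈ range (n + 1), C (u i) * X ^ i := (IsUnit.mul_right_dvd hunit).2 hdvd
  have hGX : G ≠ X := by
    intro h
    rw [h, X_dvd_iff, finsetSum_coeff] at hGdvd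
    apply hu 0
    rw [← hGdvd, Finset.sum_eq_single 0]
    · simp
    · intro b _ hb
      rw [coeff_C_mul, coeff_X_pow, if_neg (Ne.symm hb), mul_zero]
    · intro h; exact absurd (Finset.mem_range.2 (by omega)) h
  let gg : Idx F K := ⟨G, hGm, hGi, hGX, hGd⟩
  obtain ⟨m, hm⟩ := Nat.exists_eq_add_of_le (show l * T + T + T ≤ n + 1 by omega)
  have hz0 : AdjoinRoot.mk gg.1 (∑ i ∈ range (n + 1), C (u i) * X ^ i) = 0 :=
    AdjoinRoot.mk_eq_zero.2 hGdvd
  rw [hm, sum_range_add, sum_range_add, sum_range_add, map_add, map_add, map_add] at hz0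
  have s1 : AdjoinRoot.mk gg.1 (∑ i ∈ range (l * T), C (u i) * X ^ i) =
      ∑ i ∈ range T, AdjoinRoot.mk gg.1 (C ((W %ₘ (X ^ T - C 1)).coeff i)) *
        AdjoinRoot.mk gg.1 X ^ i := by
    rw [hred W gg, hW]
    congr 1
    exact sum_congr rfl (fun i hi => by rw [u1 i (Finset.mem_range.1 hi)])
  have s2 : AdjoinRoot.mk gg.1 (∑ i ∈ range T, C (u (l * T + i)) * X ^ (l * T + i)) =
      ∑ i ∈ range T, AdjoinRoot.mk gg.1 (C (y i)) * AdjoinRoot.mk gg.1 X ^ i := by
    rw [map_sum]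
    refine sum_congr rfl (fun i hi => ?_)
    rw [u2 i (Finset.mem_range.1 hi), map_mul, map_pow, pow_add, mul_comm l T, pow_mul, hXT gg,
      one_pow, one_mul]
  have s3 : AdjoinRoot.mk gg.1 (∑ i ∈ range T, C (u (l * T + T + i)) * X ^ (l * T + T + i)) =
      ∑ i ∈ range T, AdjoinRoot.mk gg.1 (C (z i)) * AdjoinRoot.mk gg.1 X ^ i := by
    rw [map_sum]
    refine sum_congr rfl (fun i hi => ?_)
    rw [u3 i (Finset.mem_range.1 hi), map_mul, map_pow, pow_add, pow_add, mul_comm l T, pow_mul,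
      hXT gg, one_pow, one_mul, one_mul]
  have s4 : AdjoinRoot.mk gg.1 (∑ i ∈ range m, C (u (l * T + T + T + i)) *
      X ^ (l * T + T + T + i)) =
      ∑ i ∈ range m, AdjoinRoot.mk gg.1 (C (a i)) * AdjoinRoot.mk gg.1 X ^ i := by
    rw [map_sum]
    refine sum_congr rfl (fun i _ => ?_)
    rw [u4 i, map_mul, map_pow, pow_add, pow_add, pow_add, mul_comm l T, pow_mul, hXT gg, one_pow,
      one_mul, one_mul, one_mul]
  have s5 : (∑ i ∈ range T, AdjoinRoot.mk gg.1 (C ((W %ₘ (X ^ T - C 1)).coeff i)) *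
        AdjoinRoot.mk gg.1 X ^ i) +
      (∑ i ∈ range T, AdjoinRoot.mk gg.1 (C (y i)) * AdjoinRoot.mk gg.1 X ^ i) +
      (∑ i ∈ range T, AdjoinRoot.mk gg.1 (C (z i)) * AdjoinRoot.mk gg.1 X ^ i) =
      AdjoinRoot.mk gg.1 (x gg) := by
    rw [← hr gg, ← hred r gg, ← sum_add_distrib, ← sum_add_distrib]
    refine sum_congr rfl (fun i _ => ?_)
    rw [← add_mul, ← add_mul, ← map_add, ← map_add, ← C_add, ← C_add]
    congr 4
    rw [add_assoc, hyz i]
    ring
  rw [s1, s2, s3, s4, s5] at hz0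
  exact hx gg m hz0

end Pool.Agent.Lib.MP_5f5f24_nt.NB
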