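import Pool.Agent.Lib.MP_5f5f24_nt.NB.Defs26

/-! Row D: the field with five elements (helper75). -/

set_option autoImplicit false

namespace Pool.Agent.Lib.MP_5f5f24_nt.NB

open Finset

universe v

/-- the letters of one block -/
def bD75 (F : Type v) [Field F] (r : ℕ) : F :=
  if r = 0 then 1 else if r = 1 then 2 else if r = 2 then 2 else 1

/-- the sequence with period eight `1, 2, 2, 1, -1, -2, -2, -1` -/
def aD75 (F : Type v) [Field F] (i : ℕ) : F := (-1) ^ (i / 4) * bD75 F (i % 4)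

/-- the partial sums of one block -/
def pD75 {L : Type v} [Field L] (α : L) (r : ℕ) : L :=
  if r = 0 then 0 else if r = 1 then 1 else if r = 2 then 1 + 2 * α else 1 + 2 * α + 2 * α ^ 2

theorem aD75_val (F : Type v) [Field F] (m r : ℕ) (hr : r < 4) :
    aD75 F (4 * m + r) = (-1) ^ m * bD75 F r := by
  unfold aD75
  rw [show (4 * m + r) / 4 = m by omega, show (4 * m + r) % 4 = r by omega]

theorem sumD75 {F L : Type v} [Field F] [Field L] [Algebra F L] (α : L) (m : ℕ) :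
    ∑ i ∈ range (4 * m), algebraMap F L (aD75 F i) * α ^ i =
      (1 + 2 * α + 2 * α ^ 2 + α ^ 3) * ∑ i ∈ range m, (-α ^ 4) ^ i := by
  have h2 : algebraMap F L 2 = 2 := map_ofNat (algebraMap F L) 2
  induction m with
  | zero => simp
  | succ m ih =>
    rw [show 4 * (m + 1) = 4 * m + 1 + 1 + 1 + 1 by ring, sum_range_succ, sum_range_succ,
      sum_range_succ, sum_range_succ, ih, sum_range_succ, show 4 * m + 1 + 1 = 4 * m + 2 by ring,
      show 4 * m + 2 + 1 = 4 * m + 3 by ring, show aD75 F (4 * m) = (-1) ^ m * bD75 F 0 from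
        aD75_val F m 0 (by norm_num), aD75_val F m 1 (by norm_num), aD75_val F m 2 (by norm_num),
      aD75_val F m 3 (by norm_num)]
    simp only [bD75, map_mul, map_pow, map_neg, map_one, reduceIte]
    norm_num
    simp only [h2]
    rw [neg_pow (α ^ 4) m, ← pow_mul, pow_add, pow_add, pow_add]
    ring

theorem sumD75' {F L : Type v} [Field F] [Field L] [Algebra F L] (α : L) (m r : ℕ) (hr : r < 4) :
    ∑ i ∈ range (4 * m + r), algebraMap F L (aD75 F i) * α ^ i =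
      (1 + 2 * α + 2 * α ^ 2 + α ^ 3) * ∑ i ∈ range m, (-α ^ 4) ^ i
        + (-α ^ 4) ^ m * pD75 α r := by
  have h2 : algebraMap F L 2 = 2 := map_ofNat (algebraMap F L) 2
  have hneg : (-α ^ 4) ^ m = (-1) ^ m * α ^ (4 * m) := by rw [neg_pow, ← pow_mul]
  interval_cases r
  · simp [pD75, sumD75]
  · rw [sum_range_succ, sumD75, show aD75 F (4 * m) = (-1) ^ m * bD75 F 0 from
        aD75_val F m 0 (by norm_num), hneg]
    simp only [bD75, pD75, map_mul, map_pow, map_neg, map_one, reduceIte]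
    norm_num
  · rw [show 4 * m + 2 = 4 * m + 1 + 1 by ring, sum_range_succ, sum_range_succ, sumD75,
      show aD75 F (4 * m) = (-1) ^ m * bD75 F 0 from
        aD75_val F m 0 (by norm_num), aD75_val F m 1 (by norm_num), hneg]
    simp only [bD75, pD75, map_mul, map_pow, map_neg, map_one, reduceIte]
    norm_num
    simp only [h2]
    rw [pow_add]
    ring
  · rw [show 4 * m + 3 = 4 * m + 1 + 1 + 1 by ring, sum_range_succ, sum_range_succ, sum_range_succ,
      sumD75, show 4 * m + 1 + 1 = 4 * m + 2 by ring,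
      show aD75 F (4 * m) = (-1) ^ m * bD75 F 0 from
        aD75_val F m 0 (by norm_num), aD75_val F m 1 (by norm_num), aD75_val F m 2 (by norm_num),
      hneg]
    simp only [bD75, pD75, map_mul, map_pow, map_neg, map_one, reduceIte]
    norm_num
    simp only [h2]
    rw [pow_add, pow_add]
    ring

/-- the conclusion for one `α` -/
def Good75 (F : Type v) {L : Type v} [Field F] [Field L] [Algebra F L] (α : L) : Prop :=
  ∃ c : L, ∀ n : ℕ, c + ∑ i ∈ range n, algebraMap F L (aD75 F i) * α ^ i ≠ 0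

theorem good_of75 {F L : Type v} [Field F] [Field L] [Algebra F L] (α c : L)
    (h : ∀ m r : ℕ, r < 4 → c + ((1 + 2 * α + 2 * α ^ 2 + α ^ 3) * ∑ i ∈ range m, (-α ^ 4) ^ i
        + (-α ^ 4) ^ m * pD75 α r) ≠ 0) : Good75 F α := by
  refine ⟨c, fun n => ?_⟩
  have h1 := h (n / 4) (n % 4) (Nat.mod_lt _ (by norm_num))
  rw [← sumD75' (F := F) α (n / 4) (n % 4) (Nat.mod_lt _ (by norm_num)), Nat.div_add_mod] at h1
  exact h1

/-- with a fixed point `s` -/
theorem fixD75 {L : Type v} [Field L] (α s : L)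
    (hs : (1 + α ^ 4) * s = 1 + 2 * α + 2 * α ^ 2 + α ^ 3) (m r : ℕ) :
    (1 + 2 * α + 2 * α ^ 2 + α ^ 3) * ∑ i ∈ range m, (-α ^ 4) ^ i
        + (-α ^ 4) ^ m * pD75 α r = s + (-α ^ 4) ^ m * (pD75 α r - s) := by
  have hg : (1 + α ^ 4) * ∑ i ∈ range m, (-α ^ 4) ^ i = 1 - (-α ^ 4) ^ m := by
    induction m with
    | zero => simp
    | succ m ih =>
      rw [sum_range_succ, mul_add, ih, pow_succ]
      ring
  rw [← hs]
  linear_combination s * hg

theorem keyD75 {F L : Type v} [Field F] [Field L] [Algebra F L] (α s d : L)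
    (hs : (1 + α ^ 4) * s = 1 + 2 * α + 2 * α ^ 2 + α ^ 3) (h24 : (α ^ 4) ^ 6 = 1)
    (h0 : d ^ 6 ≠ s ^ 6) (h1 : d ^ 6 ≠ (1 - s) ^ 6) (h2 : d ^ 6 ≠ (1 + 2 * α - s) ^ 6)
    (h3 : d ^ 6 ≠ (1 + 2 * α + 2 * α ^ 2 - s) ^ 6) : Good75 F α := by
  apply good_of75 α (d - s)
  intro m r hr h
  rw [fixD75 α s hs] at h
  have he : ((-α ^ 4) ^ m) ^ 6 = 1 := by
    rw [← pow_mul, mul_comm, pow_mul, show (-α ^ 4) ^ 6 = (α ^ 4) ^ 6 by ring, h24, one_pow]
  have hd : d ^ 6 = (pD75 α r - s) ^ 6 := by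
    have h4 : d = -((-α ^ 4) ^ m * (pD75 α r - s)) := by linear_combination h
    rw [h4]
    calc (-((-α ^ 4) ^ m * (pD75 α r - s))) ^ 6
        = ((-α ^ 4) ^ m) ^ 6 * (pD75 α r - s) ^ 6 := by ring
      _ = _ := by rw [he, one_mul]
  interval_cases r
  · apply h0
    rw [hd]
    simp only [pD75, reduceIte]
    ring
  · apply h1
    rw [hd]
    simp [pD75]
  · apply h2
    rw [hd]
    simp [pD75]
  · apply h3
    rw [hd]
    simp [pD75]

theorem nz1_75 {L : Type v} [Field L] (_h5 : (5 : L) = 0) : (1 : L) ≠ 0 := one_ne_zero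

theorem nz2_75 {L : Type v} [Field L] (h5 : (5 : L) = 0) : (2 : L) ≠ 0 := fun h =>
  one_ne_zero (α := L) (by linear_combination h5 - 2 * h)

theorem nz3_75 {L : Type v} [Field L] (h5 : (5 : L) = 0) : (3 : L) ≠ 0 := fun h =>
  one_ne_zero (α := L) (by linear_combination 2 * h - h5)

theorem nz4_75 {L : Type v} [Field L] (h5 : (5 : L) = 0) : (4 : L) ≠ 0 := fun h =>
  one_ne_zero (α := L) (by linear_combination h5 - h)

theorem int75 {L : Type v} [Field L] (h5 : (5 : L) = 0) (k : ℤ) :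
    (k : L) = 0 ∨ (k : L) ^ 4 = 1 := by
  have h1 : ((k % 5 : ℤ) : L) = (k : L) := by
    have h2 : k = k % 5 + 5 * (k / 5) := by omega
    have h3 : (k : L) = ((k % 5 : ℤ) : L) + 5 * ((k / 5 : ℤ) : L) := by
      conv_lhs => rw [h2]
      push_cast
      ring
    rw [h3, h5]
    ring
  have h4 : 0 ≤ k % 5 := Int.emod_nonneg k (by norm_num)
  have h6 : k % 5 < 5 := Int.emod_lt_of_pos k (by norm_num)
  rw [← h1]
  generalize k % 5 = t at h4 h6 ⊢
  interval_cases t
  · left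
    norm_num
  · right
    norm_num
  · right
    push_cast
    linear_combination 3 * h5
  · right
    push_cast
    linear_combination 16 * h5
  · right
    push_cast
    linear_combination 51 * h5

theorem bad75 {L : Type v} [Field L] (α x y : L) (hα : α ^ 4 = -1) (hxy : x + y * α = 0) :
    x ^ 4 + y ^ 4 = 0 := by
  have h : x = -(y * α) := by linear_combination hxy
  rw [h]
  linear_combination y ^ 4 * hα

theorem caseU_75 {F L : Type v} [Field F] [Field L] [Algebra F L] (α : L) (h5 : (5 : L) = 0)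
    (hq : α ^ 2 - 2 = 0) : Good75 F α := by
  apply good_of75 α 1
  intro m r hr h
  have h1 : -α ^ 4 = 1 := by linear_combination (-(α ^ 2 + 2)) * hq - h5
  have hα : α ^ 4 = -1 := by linear_combination -h1
  rw [h1] at h
  simp only [one_pow, sum_const, card_range, nsmul_eq_mul, mul_one, one_mul] at h
  have hk : ∀ (x : L) (k : ℤ), (x = 1 ∨ x = 2) → x + (k : L) * α ≠ 0 := by
    intro x k hx h2
    have h3 := bad75 α x k hα h2
    rcases hx with rfl | rfl <;> rcases int75 h5 k with h4 | h4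
    · rw [h4] at h3
      exact nz1_75 h5 (by linear_combination h3)
    · exact nz2_75 h5 (by linear_combination h3 - h4)
    · rw [h4] at h3
      exact nz1_75 h5 (by linear_combination h3 - 3 * h5)
    · exact nz2_75 h5 (by linear_combination h3 - h4 - 3 * h5)
  interval_cases r
  · apply hk 1 (-(m : ℤ)) (Or.inl rfl)
    simp only [pD75, reduceIte] at h
    push_cast
    linear_combination h - m * (α + 2) * hq - m * (1 + α) * h5
  · apply hk 2 (-(m : ℤ)) (Or.inr rfl)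
    simp [pD75] at h
    push_cast
    linear_combination h - m * (α + 2) * hq - m * (1 + α) * h5
  · apply hk 2 (2 - (m : ℤ)) (Or.inr rfl)
    simp [pD75] at h
    push_cast
    linear_combination h - m * (α + 2) * hq - m * (1 + α) * h5
  · apply hk 1 (2 - (m : ℤ)) (Or.inl rfl)
    simp [pD75] at h
    push_cast
    linear_combination h - m * (α + 2) * hq - m * (1 + α) * h5 - 2 * hq - h5

theorem caseV_75 {F L : Type v} [Field F] [Field L] [Algebra F L] (α : L) (h5 : (5 : L) = 0)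
    (hq : α ^ 2 + 2 = 0) : Good75 F α := by
  apply good_of75 α α
  intro m r hr h
  have h1 : -α ^ 4 = 1 := by linear_combination (-(α ^ 2 - 2)) * hq - h5
  have hα : α ^ 4 = -1 := by linear_combination -h1
  rw [h1] at h
  simp only [one_pow, sum_const, card_range, nsmul_eq_mul, mul_one, one_mul] at h
  have hk : ∀ (k : ℤ) (y : L), (y = 1 ∨ y = 3) → (k : L) + y * α ≠ 0 := by
    intro k y hy h2
    have h3 := bad75 α k y hα h2
    rcases hy with rfl | rfl <;> rcases int75 h5 k with h4 | h4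
    · rw [h4] at h3
      exact nz1_75 h5 (by linear_combination h3)
    · exact nz2_75 h5 (by linear_combination h3 - h4)
    · rw [h4] at h3
      exact nz1_75 h5 (by linear_combination h3 - 16 * h5)
    · exact nz2_75 h5 (by linear_combination h3 - h4 - 16 * h5)
  interval_cases r
  · apply hk (-3 * (m : ℤ)) 1 (Or.inl rfl)
    simp only [pD75, reduceIte] at h
    push_cast
    linear_combination h - m * (α + 2) * hq
  · apply hk (1 - 3 * (m : ℤ)) 1 (Or.inl rfl)
    simp [pD75] at h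
    push_cast
    linear_combination h - m * (α + 2) * hq
  · apply hk (1 - 3 * (m : ℤ)) 3 (Or.inr rfl)
    simp [pD75] at h
    push_cast
    linear_combination h - m * (α + 2) * hq
  · apply hk (-3 - 3 * (m : ℤ)) 3 (Or.inr rfl)
    simp [pD75] at h
    push_cast
    linear_combination h - m * (α + 2) * hq - 2 * hq

theorem case1_75 {F L : Type v} [Field F] [Field L] [Algebra F L] (α : L) (h5 : (5 : L) = 0)
    (hq : α - 1 = 0) : Good75 F α := by
  apply keyD75 α 3 1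
  · linear_combination ((-2) + (2)*α^2 + (-2)*α^3) * hq + ((-1)*α^3 + (1)*α^4) * h5
  · linear_combination ((1) + (1)*α^1 + (1)*α^2 + (1)*α^3 + (1)*α^4 + (1)*α^5 + (1)*α^6 + (1)*α^7 + (1)*α^8 + (1)*α^9 + (1)*α^10 + (1)*α^11 + (1)*α^12 + (1)*α^13 + (1)*α^14 + (1)*α^15 + (1)*α^16 + (1)*α^17 + (1)*α^18 + (1)*α^19 + (1)*α^20 + (1)*α^21 + (1)*α^22 + (1)*α^23) * hq + (0) * h5
  · intro h
    have hx : 3 ^ 6 = (4 : L) := by
      linear_combination (0) * hq + ((145)) * h5
    apply nz2_75 h5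
    linear_combination h + hx - (-1) * h5
  · intro h
    have hx : (1 - 3) ^ 6 = (4 : L) := by
      linear_combination (0) * hq + ((12)) * h5
    apply nz2_75 h5
    linear_combination h + hx - (-1) * h5
  · intro h
    have hx : (1 + 2 * α - 3) ^ 6 = (0 : L) := by
      linear_combination ((1) + (-1)*α^5) * hq + ((13) + (-77)*α^1 + (192)*α^2 + (-256)*α^3 + (192)*α^4 + (-77)*α^5 + (13)*α^6) * h5
    apply nz1_75 h5
    linear_combination h + hx - (0) * h5
  · intro h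
    have hx : (1 + 2 * α + 2 * α ^ 2 - 3) ^ 6 = (4 : L) := by
      linear_combination ((-1)*α^1 + (-2)*α^2 + (-2)*α^3 + (-2)*α^4 + (2)*α^5 + (-2)*α^6 + (-1)*α^7 + (-1)*α^8 + (-1)*α^9 + (-2)*α^10 + (-1)*α^11) * hq + ((12) + (-77)*α^1 + (115)*α^2 + (128)*α^3 + (-384)*α^4 + (-76)*α^5 + (524)*α^6 + (77)*α^7 + (-384)*α^8 + (-128)*α^9 + (115)*α^10 + (77)*α^11 + (13)*α^12) * h5
    apply nz2_75 h5
    linear_combination h + hx - (-1) * h5

theorem case2_75 {F L : Type v} [Field F] [Field L] [Algebra F L] (α : L) (h5 : (5 : L) = 0)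
    (hq : α - 2 = 0) : Good75 F α := by
  apply keyD75 α 3 1
  · linear_combination ((-1) + (-2)*α^1 + (-2)*α^3) * hq + ((-1)*α^1 + (-1)*α^3 + (1)*α^4) * h5
  · linear_combination ((-2) + (-1)*α^1 + (2)*α^2 + (1)*α^3 + (-2)*α^4 + (-1)*α^5 + (2)*α^6 + (1)*α^7 + (-2)*α^8 + (-1)*α^9 + (2)*α^10 + (1)*α^11 + (-2)*α^12 + (-1)*α^13 + (2)*α^14 + (1)*α^15 + (-2)*α^16 + (-1)*α^17 + (2)*α^18 + (1)*α^19 + (-2)*α^20 + (-1)*α^21 + (2)*α^22 + (1)*α^23) * hq + ((-1) + (1)*α^2 + (-1)*α^4 + (1)*α^6 + (-1)*α^8 + (1)*α^10 + (-1)*α^12 + (1)*α^14 + (-1)*α^16 + (1)*α^18 + (-1)*α^20 + (1)*α^22) * h5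
  · intro h
    have hx : 3 ^ 6 = (4 : L) := by
      linear_combination (0) * hq + ((145)) * h5
    apply nz2_75 h5
    linear_combination h + hx - (-1) * h5
  · intro h
    have hx : (1 - 3) ^ 6 = (4 : L) := by
      linear_combination (0) * hq + ((12)) * h5
    apply nz2_75 h5
    linear_combination h + hx - (-1) * h5
  · intro h
    have hx : (1 + 2 * α - 3) ^ 6 = (4 : L) := by
      linear_combination ((2)*α^1 + (1)*α^2 + (-2)*α^3 + (-1)*α^4 + (-1)*α^5) * hq + ((12) + (-76)*α^1 + (192)*α^2 + (-257)*α^3 + (192)*α^4 + (-77)*α^5 + (13)*α^6) * h5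
    apply nz2_75 h5
    linear_combination h + hx - (-1) * h5
  · intro h
    have hx : (1 + 2 * α + 2 * α ^ 2 - 3) ^ 6 = (0 : L) := by
      linear_combination ((-2) + (1)*α^1 + (2)*α^5 + (-1)*α^6 + (2)*α^10 + (-1)*α^11) * hq + ((12) + (-76)*α^1 + (115)*α^2 + (128)*α^3 + (-384)*α^4 + (-76)*α^5 + (524)*α^6 + (77)*α^7 + (-384)*α^8 + (-128)*α^9 + (116)*α^10 + (76)*α^11 + (13)*α^12) * h5
    apply nz1_75 h5
    linear_combination h + hx - (0) * h5

theorem case3_75 {F L : Type v} [Field F] [Field L] [Algebra F L] (α : L) (h5 : (5 : L) = 0)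
    (hq : α - 3 = 0) : Good75 F α := by
  apply keyD75 α 1 2
  · linear_combination ((-1)*α^1 + (2)*α^2 + (1)*α^3) * hq + ((-1)*α^1 + (1)*α^2) * h5
  · linear_combination ((2) + (-1)*α^1 + (-2)*α^2 + (1)*α^3 + (2)*α^4 + (-1)*α^5 + (-2)*α^6 + (1)*α^7 + (2)*α^8 + (-1)*α^9 + (-2)*α^10 + (1)*α^11 + (2)*α^12 + (-1)*α^13 + (-2)*α^14 + (1)*α^15 + (2)*α^16 + (-1)*α^17 + (-2)*α^18 + (1)*α^19 + (2)*α^20 + (-1)*α^21 + (-2)*α^22 + (1)*α^23) * hq + ((1) + (-1)*α^1 + (-1)*α^2 + (1)*α^3 + (1)*α^4 + (-1)*α^5 + (-1)*α^6 + (1)*α^7 + (1)*α^8 + (-1)*α^9 + (-1)*α^10 + (1)*α^11 + (1)*α^12 + (-1)*α^13 + (-1)*α^14 + (1)*α^15 + (1)*α^16 + (-1)*α^17 + (-1)*α^18 + (1)*α^19 + (1)*α^20 + (-1)*α^21 + (-1)*α^22 + (1)*α^23) * h5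
  · intro h
    have hx : 1 ^ 6 = (1 : L) := by
      linear_combination (0) * hq + (0) * h5
    apply nz3_75 h5
    linear_combination h + hx - (12) * h5
  · intro h
    have hx : (1 - 1) ^ 6 = (0 : L) := by
      linear_combination (0) * hq + (0) * h5
    apply nz4_75 h5
    linear_combination h + hx - (12) * h5
  · intro h
    have hx : (1 + 2 * α - 1) ^ 6 = (1 : L) := by
      linear_combination ((2) + (-1)*α^1 + (-2)*α^2 + (1)*α^3 + (2)*α^4 + (-1)*α^5) * hq + ((1) + (-1)*α^1 + (-1)*α^2 + (1)*α^3 + (1)*α^4 + (-1)*α^5 + (13)*α^6) * h5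
    apply nz3_75 h5
    linear_combination h + hx - (12) * h5
  · intro h
    have hx : (1 + 2 * α + 2 * α ^ 2 - 1) ^ 6 = (1 : L) := by
      linear_combination ((2) + (-1)*α^1 + (-2)*α^2 + (1)*α^3 + (2)*α^4 + (-1)*α^5 + (2)*α^7 + (-1)*α^8 + (-2)*α^9 + (1)*α^10 + (-1)*α^11) * hq + ((1) + (-1)*α^1 + (-1)*α^2 + (1)*α^3 + (1)*α^4 + (-1)*α^5 + (13)*α^6 + (78)*α^7 + (191)*α^8 + (255)*α^9 + (193)*α^10 + (76)*α^11 + (13)*α^12) * h5
    apply nz3_75 h5
    linear_combination h + hx - (12) * h5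

theorem case4_75 {F L : Type v} [Field F] [Field L] [Algebra F L] (α : L) (h5 : (5 : L) = 0)
    (hq : 1 + α = 0) : Good75 F α := by
  apply keyD75 α 0 2
  · linear_combination ((-1) + (-1)*α^1 + (-1)*α^2) * hq + (0) * h5
  · linear_combination ((-1) + (1)*α^1 + (-1)*α^2 + (1)*α^3 + (-1)*α^4 + (1)*α^5 + (-1)*α^6 + (1)*α^7 + (-1)*α^8 + (1)*α^9 + (-1)*α^10 + (1)*α^11 + (-1)*α^12 + (1)*α^13 + (-1)*α^14 + (1)*α^15 + (-1)*α^16 + (1)*α^17 + (-1)*α^18 + (1)*α^19 + (-1)*α^20 + (1)*α^21 + (-1)*α^22 + (1)*α^23) * hq + (0) * h5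
  · intro h
    have hx : 0 ^ 6 = (0 : L) := by
      linear_combination (0) * hq + (0) * h5
    apply nz4_75 h5
    linear_combination h + hx - (12) * h5
  · intro h
    have hx : (1 - 0) ^ 6 = (1 : L) := by
      linear_combination (0) * hq + (0) * h5
    apply nz3_75 h5
    linear_combination h + hx - (12) * h5
  · intro h
    have hx : (1 + 2 * α - 0) ^ 6 = (1 : L) := by
      linear_combination ((2)*α^1 + (-2)*α^2 + (2)*α^3 + (-2)*α^4 + (-1)*α^5) * hq + ((2)*α^1 + (12)*α^2 + (32)*α^3 + (48)*α^4 + (39)*α^5 + (13)*α^6) * h5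
    apply nz3_75 h5
    linear_combination h + hx - (12) * h5
  · intro h
    have hx : (1 + 2 * α + 2 * α ^ 2 - 0) ^ 6 = (1 : L) := by
      linear_combination ((2)*α^1 + (2)*α^5 + (2)*α^6 + (2)*α^7 + (-2)*α^8 + (2)*α^9 + (-1)*α^11) * hq + ((2)*α^1 + (14)*α^2 + (56)*α^3 + (156)*α^4 + (326)*α^5 + (524)*α^6 + (652)*α^7 + (624)*α^8 + (448)*α^9 + (230)*α^10 + (77)*α^11 + (13)*α^12) * h5
    apply nz3_75 h5
    linear_combination h + hx - (12) * h5

theorem caseq1_75 {F L : Type v} [Field F] [Field L] [Algebra F L] (α : L) (h5 : (5 : L) = 0)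
    (hq : 1 + α + α ^ 2 = 0) : Good75 F α := by
  apply keyD75 α 0 2
  · linear_combination ((-1) + (-1)*α^1) * hq + (0) * h5
  · linear_combination ((-1) + (1)*α^1 + (-1)*α^3 + (1)*α^4 + (-1)*α^6 + (1)*α^7 + (-1)*α^9 + (1)*α^10 + (-1)*α^12 + (1)*α^13 + (-1)*α^15 + (1)*α^16 + (-1)*α^18 + (1)*α^19 + (-1)*α^21 + (1)*α^22) * hq + (0) * h5
  · intro h
    have hx : 0 ^ 6 = (0 : L) := by
      linear_combination (0) * hq + (0) * h5
    apply nz4_75 h5
    linear_combination h + hx - (12) * h5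
  · intro h
    have hx : (1 - 0) ^ 6 = (1 : L) := by
      linear_combination (0) * hq + (0) * h5
    apply nz3_75 h5
    linear_combination h + hx - (12) * h5
  · intro h
    have hx : (1 + 2 * α - 0) ^ 6 = (3 : L) := by
      linear_combination ((-2) + (-1)*α^1 + (-2)*α^2 + (-2)*α^3 + (-1)*α^4) * hq + ((3)*α^1 + (13)*α^2 + (33)*α^3 + (49)*α^4 + (39)*α^5 + (13)*α^6) * h5
    apply nz1_75 h5
    linear_combination h + hx - (12) * h5
  · intro h
    have hx : (1 + 2 * α + 2 * α ^ 2 - 0) ^ 6 = (1 : L) := by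
      linear_combination ((2)*α^1 + (-2)*α^3 + (2)*α^4 + (2)*α^5 + (2)*α^7 + (-2)*α^8 + (-1)*α^10) * hq + ((2)*α^1 + (14)*α^2 + (56)*α^3 + (156)*α^4 + (326)*α^5 + (524)*α^6 + (652)*α^7 + (624)*α^8 + (448)*α^9 + (231)*α^10 + (77)*α^11 + (13)*α^12) * h5
    apply nz3_75 h5
    linear_combination h + hx - (12) * h5

theorem caseq2_75 {F L : Type v} [Field F] [Field L] [Algebra F L] (α : L) (h5 : (5 : L) = 0)
    (hq : α ^ 2 + 2 * α + 4 = 0) : Good75 F α := by
  apply keyD75 α 1 2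
  · linear_combination ((2)*α^1 + (1)*α^2) * hq + ((-2)*α^1 + (-2)*α^2 + (-1)*α^3) * h5
  · linear_combination ((1) + (2)*α^1 + (2)*α^3 + (-1)*α^4 + (-1)*α^6 + (-2)*α^7 + (-2)*α^9 + (1)*α^10 + (1)*α^12 + (2)*α^13 + (2)*α^15 + (-1)*α^16 + (-1)*α^18 + (-2)*α^19 + (-2)*α^21 + (1)*α^22) * hq + ((-1) + (-2)*α^1 + (-1)*α^2 + (-2)*α^3 + (1)*α^6 + (2)*α^7 + (1)*α^8 + (2)*α^9 + (-1)*α^12 + (-2)*α^13 + (-1)*α^14 + (-2)*α^15 + (1)*α^18 + (2)*α^19 + (1)*α^20 + (2)*α^21) * h5
  · intro h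
    have hx : 1 ^ 6 = (1 : L) := by
      linear_combination (0) * hq + (0) * h5
    apply nz3_75 h5
    linear_combination h + hx - (12) * h5
  · intro h
    have hx : (1 - 1) ^ 6 = (0 : L) := by
      linear_combination (0) * hq + (0) * h5
    apply nz4_75 h5
    linear_combination h + hx - (12) * h5
  · intro h
    have hx : (1 + 2 * α - 1) ^ 6 = (1 : L) := by
      linear_combination ((1) + (2)*α^1 + (2)*α^3 + (-1)*α^4) * hq + ((-1) + (-2)*α^1 + (-1)*α^2 + (-2)*α^3 + (13)*α^6) * h5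
    apply nz3_75 h5
    linear_combination h + hx - (12) * h5
  · intro h
    have hx : (1 + 2 * α + 2 * α ^ 2 - 1) ^ 6 = (3 : L) := by
      linear_combination ((-2) + (1)*α^1 + (1)*α^3 + (2)*α^4 + (-2)*α^6 + (2)*α^7 + (2)*α^8 + (1)*α^9 + (-1)*α^10) * hq + ((1) + (-1)*α^3 + (-2)*α^4 + (-1)*α^5 + (14)*α^6 + (76)*α^7 + (190)*α^8 + (254)*α^9 + (192)*α^10 + (77)*α^11 + (13)*α^12) * h5
    apply nz1_75 h5
    linear_combination h + hx - (12) * h5

theorem caseq3_75 {F L : Type v} [Field F] [Field L] [Algebra F L] (α : L) (h5 : (5 : L) = 0)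
    (hq : α ^ 2 - α + 1 = 0) : Good75 F α := by
  apply keyD75 α (1 + 2 * α) 1
  · linear_combination ((-2)*α^2 + (2)*α^3) * hq + ((-1)*α^3 + (1)*α^4) * h5
  · linear_combination ((-1) + (-1)*α^1 + (1)*α^3 + (1)*α^4 + (-1)*α^6 + (-1)*α^7 + (1)*α^9 + (1)*α^10 + (-1)*α^12 + (-1)*α^13 + (1)*α^15 + (1)*α^16 + (-1)*α^18 + (-1)*α^19 + (1)*α^21 + (1)*α^22) * hq + (0) * h5
  · intro h
    have hx : (1 + 2 * α) ^ 6 = (2 : L) := by
      linear_combination ((-1) + (1)*α^1 + (2)*α^2 + (1)*α^3 + (-1)*α^4) * hq + ((2)*α^1 + (12)*α^2 + (32)*α^3 + (48)*α^4 + (38)*α^5 + (13)*α^6) * h5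
    apply nz4_75 h5
    linear_combination h + hx - (-1) * h5
  · intro h
    have hx : (1 - (1 + 2 * α)) ^ 6 = (4 : L) := by
      linear_combination ((1) + (1)*α^1 + (-1)*α^3 + (-1)*α^4) * hq + ((-1) + (13)*α^6) * h5
    apply nz2_75 h5
    linear_combination h + hx - (-1) * h5
  · intro h
    have hx : (1 + 2 * α - (1 + 2 * α)) ^ 6 = (0 : L) := by
      linear_combination (0) * hq + (0) * h5
    apply nz1_75 h5
    linear_combination h + hx - (0) * h5
  · intro h
    have hx : (1 + 2 * α + 2 * α ^ 2 - (1 + 2 * α)) ^ 6 = (4 : L) := by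
      linear_combination ((1) + (1)*α^1 + (-1)*α^3 + (-1)*α^4 + (1)*α^6 + (1)*α^7 + (-1)*α^9 + (-1)*α^10) * hq + ((-1) + (13)*α^12) * h5
    apply nz2_75 h5
    linear_combination h + hx - (-1) * h5

theorem caseq4_75 {F L : Type v} [Field F] [Field L] [Algebra F L] (α : L) (h5 : (5 : L) = 0)
    (hq : α ^ 2 + 3 * α + 4 = 0) : Good75 F α := by
  apply keyD75 α (3 + α) 1
  · linear_combination ((-2) + (1)*α^3) * hq + ((2) + (1)*α^1 + (-1)*α^3) * h5
  · linear_combination ((1) + (-2)*α^1 + (-2)*α^3 + (-1)*α^4 + (-1)*α^6 + (2)*α^7 + (2)*α^9 + (1)*α^10 + (1)*α^12 + (-2)*α^13 + (-2)*α^15 + (-1)*α^16 + (-1)*α^18 + (2)*α^19 + (2)*α^21 + (1)*α^22) * hq + ((-1) + (1)*α^1 + (1)*α^2 + (2)*α^3 + (2)*α^4 + (1)*α^5 + (1)*α^6 + (-1)*α^7 + (-1)*α^8 + (-2)*α^9 + (-2)*α^10 + (-1)*α^11 + (-1)*α^12 + (1)*α^13 + (1)*α^14 + (2)*α^15 + (2)*α^16 + (1)*α^17 + (1)*α^18 + (-1)*α^19 + (-1)*α^20 + (-2)*α^21 + (-2)*α^22 + (-1)*α^23) * h5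
  · intro h
    have hx : (3 + α) ^ 6 = (4 : L) := by
      linear_combination ((2)*α^1 + (1)*α^2 + (1)*α^4) * hq + ((145) + (290)*α^1 + (241)*α^2 + (107)*α^3 + (26)*α^4 + (3)*α^5) * h5
    apply nz2_75 h5
    linear_combination h + hx - (-1) * h5
  · intro h
    have hx : (1 - (3 + α)) ^ 6 = (2 : L) := by
      linear_combination ((-2) + (2)*α^1 + (-1)*α^2 + (-1)*α^3 + (1)*α^4) * hq + ((14) + (38)*α^1 + (48)*α^2 + (33)*α^3 + (12)*α^4 + (2)*α^5) * h5
    apply nz4_75 h5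
    linear_combination h + hx - (-1) * h5
  · intro h
    have hx : (1 + 2 * α - (3 + α)) ^ 6 = (4 : L) := by
      linear_combination ((2)*α^1 + (1)*α^2 + (1)*α^4) * hq + ((12) + (-40)*α^1 + (46)*α^2 + (-33)*α^3 + (11)*α^4 + (-3)*α^5) * h5
    apply nz2_75 h5
    linear_combination h + hx - (-1) * h5
  · intro h
    have hx : (1 + 2 * α + 2 * α ^ 2 - (3 + α)) ^ 6 = (0 : L) := by
      linear_combination ((1) + (2)*α^5 + (-1)*α^10) * hq + ((12) + (-39)*α^1 + (-29)*α^2 + (160)*α^3 + (12)*α^4 + (-292)*α^5 + (7)*α^6 + (290)*α^7 + (12)*α^8 + (-160)*α^9 + (-28)*α^10 + (39)*α^11 + (13)*α^12) * h5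
    apply nz1_75 h5
    linear_combination h + hx - (0) * h5


/-- ROW D -/
theorem rowD75 : StD.{v} := by
  intro F _ hF
  have h5F : (5 : F) = 0 := by
    have : Finite F := Nat.finite_of_card_ne_zero (by rw [hF]; norm_num)
    have := Fintype.ofFinite F
    have h1 := FiniteField.cast_card_eq_zero F
    rw [← Nat.card_eq_fintype_card, hF] at h1
    exact_mod_cast h1
  refine ⟨aD75 F, ?_, ?_⟩
  · intro i
    unfold aD75 bD75
    apply mul_ne_zero (pow_ne_zero _ (neg_ne_zero.2 one_ne_zero))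
    split_ifs
    · exact one_ne_zero
    · exact nz2_75 h5F
    · exact nz2_75 h5F
    · exact one_ne_zero
  · intro L _ _ α hα
    have h5 : (5 : L) = 0 := by
      have h1 := congrArg (algebraMap F L) h5F
      rw [map_zero, map_ofNat] at h1
      exact h1
    change Good75 F α
    by_cases hβ : 1 + α ^ 4 = 0
    · have h1 : (α ^ 2 - 2) * (α ^ 2 + 2) = 0 := by linear_combination hβ - h5
      rcases mul_eq_zero.1 h1 with h2 | h2
      · exact caseU_75 α h5 h2
      · exact caseV_75 α h5 h2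
    · have hs : (1 + α ^ 4) * ((1 + 2 * α + 2 * α ^ 2 + α ^ 3) / (1 + α ^ 4)) =
          1 + 2 * α + 2 * α ^ 2 + α ^ 3 := mul_div_cancel₀ _ hβ
      generalize (1 + 2 * α + 2 * α ^ 2 + α ^ 3) / (1 + α ^ 4) = s at hs
      by_cases hall : ∀ r : ℕ, r < 4 → pD75 α r ≠ s
      · apply good_of75 α (-s)
        intro m r hr h
        rw [fixD75 α s hs] at h
        have h1 : (-α ^ 4) ^ m * (pD75 α r - s) = 0 := by linear_combination h
        rcases mul_eq_zero.1 h1 with h2 | h2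
        · exact pow_ne_zero m (neg_ne_zero.2 (pow_ne_zero 4 hα)) h2
        · exact hall r hr (sub_eq_zero.1 h2)
      · push Not at hall
        obtain ⟨r, hr, hrs⟩ := hall
        rw [← hrs] at hs
        interval_cases r
        · simp only [pD75, reduceIte] at hs
          have h1 : (1 + α) * (1 + α + α ^ 2) = 0 := by linear_combination -hs
          rcases mul_eq_zero.1 h1 with h2 | h2
          · exact case4_75 α h5 h2
          · exact caseq1_75 α h5 h2
        · simp [pD75] at hs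
          have h1 : α * ((α - 3) * (α ^ 2 + 2 * α + 4)) = 0 := by
            linear_combination hs - 2 * α * h5
          rcases mul_eq_zero.1 h1 with h2 | h2
          · exact absurd h2 hα
          rcases mul_eq_zero.1 h2 with h3 | h3
          · exact case3_75 α h5 h3
          · exact caseq2_75 α h5 h3
        · simp [pD75] at hs
          have h1 : α ^ 2 * ((α - 1) * (2 * α ^ 2 + 3 * α + 2)) = 0 := by
            linear_combination hs
          rcases mul_eq_zero.1 h1 with h2 | h2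
          · exact absurd h2 (pow_ne_zero 2 hα)
          rcases mul_eq_zero.1 h2 with h3 | h3
          · exact case1_75 α h5 h3
          · exact caseq3_75 α h5 (by linear_combination 3 * h3 - (α ^ 2 + 2 * α + 1) * h5)
        · simp [pD75] at hs
          have h1 : α ^ 3 * ((α - 2) * (2 * α ^ 2 + α + 3)) = 0 := by
            linear_combination hs - α ^ 3 * (α ^ 2 + 1) * h5
          rcases mul_eq_zero.1 h1 with h2 | h2
          · exact absurd h2 (pow_ne_zero 3 hα)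
          rcases mul_eq_zero.1 h2 with h3 | h3
          · exact case2_75 α h5 h3
          · exact caseq4_75 α h5 (by linear_combination 3 * h3 - (α ^ 2 + 1) * h5)

end Pool.Agent.Lib.MP_5f5f24_nt.NB
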