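import Pool.Agent.Lib.MP_5f5f24_nt.NB.Defs26

/-! Row G: the cases (helper27). -/

set_option autoImplicit false

namespace Pool.Agent.Lib.MP_5f5f24_nt.NB

open Finset Polynomial

universe v

theorem rowG27 : StG.{v} := by
  intro hA hB hC hD F _ _ h4
  classical
  have := Fintype.ofFinite F
  by_cases hnp : ∃ b : F, ∀ n : ℕ, b ≠ (n : F)
  · obtain ⟨b, hb⟩ := hnp
    exact hA F b hb
  push Not at hnp
  obtain ⟨p, hp⟩ := CharP.exists F
  obtain ⟨k, hpp, hcard⟩ := FiniteField.card F p
  have hcF : Nat.card F = Fintype.card F := Nat.card_eq_fintype_card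
  have hle : Fintype.card F ≤ p := by
    have hs : (Finset.univ : Finset F) ⊆ (Finset.range p).image (fun n : ℕ => (n : F)) := by
      intro b _
      obtain ⟨n, hn⟩ := hnp b
      rw [Finset.mem_image]
      refine ⟨n % p, Finset.mem_range.2 (Nat.mod_lt _ hpp.pos), ?_⟩
      rw [hn]
      exact (CharP.cast_eq_mod F p n).symm
    calc Fintype.card F = (Finset.univ : Finset F).card := rfl
      _ ≤ ((Finset.range p).image (fun n : ℕ => (n : F))).card := Finset.card_le_card hs
      _ ≤ (Finset.range p).card := Finset.card_image_le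
      _ = p := Finset.card_range p
  have hge : p ≤ Fintype.card F := by
    rw [hcard]
    exact Nat.le_self_pow k.ne_zero p
  have hq : Fintype.card F = p := le_antisymm hle hge
  have hp4 : 4 ≤ p := by omega
  have hne : ∀ n : ℕ, 0 < n → n < 4 → (n : F) ≠ 0 := by
    intro n h0 hn h
    have h1 := (CharP.cast_eq_zero_iff F p n).1 h
    have := Nat.le_of_dvd h0 h1
    omega
  have h2 : (2 : F) ≠ 0 := by exact_mod_cast hne 2 (by omega) (by omega)
  have h3 : (3 : F) ≠ 0 := by exact_mod_cast hne 3 (by omega) (by omega)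
  obtain ⟨e, m, hm, hem⟩ := Nat.exists_eq_two_pow_mul_odd (n := p - 1) (by omega)
  by_cases hm1 : m = 1
  · subst hm1
    rw [mul_one] at hem
    by_cases h5 : p = 5
    · exact hD F (by rw [hcF, hq, h5])
    have he : 3 ≤ e := by
      by_contra hcon
      have : e = 0 ∨ e = 1 ∨ e = 2 := by omega
      rcases this with rfl | rfl | rfl <;> omega
    have h8 : p % 8 = 1 := by
      obtain ⟨j, rfl⟩ := Nat.exists_eq_add_of_le he
      rw [pow_add] at hem
      omega
    obtain ⟨c, hc⟩ := FiniteField.exists_nonsquare (F := F) (by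
      intro h
      have : CharP F 2 := by rw [← h]; exact ringChar.charP F
      exact h2 (CharTwo.two_eq_zero))
    refine hC F c h2 h3 ?_ ?_ ?_ hc
    · intro x hx
      have hx3 : x ^ 3 = 1 := by linear_combination (x - 1) * hx
      have hx1 : x ≠ 1 := by
        rintro rfl
        apply h3
        linear_combination hx
      have hx0 : x ≠ 0 := by
        rintro rfl
        simp at hx
      have ho : orderOf x = 3 := orderOf_eq_prime hx3 hx1
      have h6 : x ^ (Fintype.card F - 1) = 1 := FiniteField.pow_card_sub_one_eq_one x hx0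
      have h7 := orderOf_dvd_of_pow_eq_one h6
      rw [ho, hq, hem] at h7
      have h9 := Nat.Prime.dvd_of_dvd_pow Nat.prime_three h7
      omega
    · rw [FiniteField.isSquare_neg_one_iff, hq]
      omega
    · rw [FiniteField.isSquare_two_iff, hq]
      omega
  · obtain ⟨g, hg⟩ := IsCyclic.exists_generator (α := Fˣ)
    have hog : orderOf g = p - 1 := by
      rw [orderOf_eq_card_of_forall_mem_zpowers hg, Nat.card_eq_fintype_card, Fintype.card_units, hq]
    have hm3 : 3 ≤ m := by
      obtain ⟨j, hj⟩ := hm
      omega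
    have hpow : ∀ (u : Fˣ), u ^ (p - 1) = 1 := by
      intro u
      have h6 := pow_card_eq_one (x := u)
      rwa [Fintype.card_units, hq] at h6
    refine hB F ((g ^ m : Fˣ) : F) (g : F) h2 (Units.ne_zero _) ?_ (Units.ne_zero _) ?_
    · rintro ⟨y, hy⟩
      have hy0 : y ≠ 0 := by
        rintro rfl
        rw [mul_zero] at hy
        exact (Units.ne_zero _) hy
      have hy' : g ^ m = Units.mk0 y hy0 * Units.mk0 y hy0 := by
        ext
        simpa using hy
      have he0 : e ≠ 0 := by
        rintro rfl
        -- then p is even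
        have hodd : Odd (p - 1) := by rw [hem]; simpa using hm
        obtain ⟨j, hj⟩ := hodd
        have h2p : 2 ∣ p := ⟨j + 1, by omega⟩
        have := (Nat.prime_dvd_prime_iff_eq Nat.prime_two hpp).1 h2p
        omega
      obtain ⟨e', rfl⟩ := Nat.exists_eq_succ_of_ne_zero he0
      have h7 : g ^ (m * (2 ^ e' * m)) = 1 := by
        rw [pow_mul, hy', ← pow_two, ← pow_mul]
        have : 2 * (2 ^ e' * m) = p - 1 := by rw [hem, pow_succ]; ring
        rw [this]
        exact hpow _
      have h8 := orderOf_dvd_of_pow_eq_one h7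
      rw [hog, hem] at h8
      have h9 : 2 * (2 ^ e' * m) ∣ m * (2 ^ e' * m) := by
        have : 2 ^ (e' + 1) * m = 2 * (2 ^ e' * m) := by rw [pow_succ]; ring
        rwa [Nat.succ_eq_add_one, this] at h8
      have h10 : 2 ∣ m := Nat.dvd_of_mul_dvd_mul_right (by positivity) h9
      obtain ⟨j, hj⟩ := hm
      omega
    · intro j hj
      have hj' : g = (g ^ m) ^ j := by
        ext
        rw [hj]
        simp
      have h7 : g ^ (2 ^ e) = 1 := by
        rw [hj', ← zpow_natCast, ← zpow_mul, mul_comm, zpow_mul, zpow_natCast, ← pow_mul,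
          mul_comm m, ← hem, hpow, one_zpow]
      have h8 := orderOf_dvd_of_pow_eq_one h7
      rw [hog, hem] at h8
      have h9 := Nat.le_of_dvd (by positivity) h8
      have h10 : 0 < 2 ^ e := by positivity
      nlinarith

end Pool.Agent.Lib.MP_5f5f24_nt.NB
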