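import Pool.Agent.Lib.MP_5f5f24_nt.NB.Defs26

set_option autoImplicit false

namespace Pool.Agent.Lib.MP_5f5f24_nt.NB

open Finset Polynomial

universe v

namespace Neg2

theorem two {F : Type v} [Field F] [Finite F] (h : Nat.card F = 2) :
    (∀ x : F, x = 0 ∨ x = 1) ∧ (2 : F) = 0 := by
  have := Fintype.ofFinite F
  have hc : Fintype.card F = 2 := by rw [← Nat.card_eq_fintype_card]; exact h
  let e := ZMod.ringEquivOfPrime F Nat.prime_two hc
  constructor
  · intro x
    have h1 : ∀ y : ZMod 2, y = 0 ∨ y = 1 := by decide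
    rcases h1 (e.symm x) with h2 | h2
    · left
      rw [← e.apply_symm_apply x, h2, map_zero]
    · right
      rw [← e.apply_symm_apply x, h2, map_one]
  · have h1 : (2 : ZMod 2) = 0 := by decide
    have h2 := congrArg e h1
    rw [map_zero] at h2
    rw [← h2]
    exact (map_ofNat e 2).symm

theorem three {F : Type v} [Field F] [Finite F] (h : Nat.card F = 3) :
    (∀ x : F, x = 0 ∨ x = 1 ∨ x = -1) ∧ (3 : F) = 0 := by
  have := Fintype.ofFinite F
  have hc : Fintype.card F = 3 := by rw [← Nat.card_eq_fintype_card]; exact h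
  let e := ZMod.ringEquivOfPrime F Nat.prime_three hc
  constructor
  · intro x
    have h1 : ∀ y : ZMod 3, y = 0 ∨ y = 1 ∨ y = -1 := by decide
    rcases h1 (e.symm x) with h2 | h2 | h2
    · left
      rw [← e.apply_symm_apply x, h2, map_zero]
    · right; left
      rw [← e.apply_symm_apply x, h2, map_one]
    · right; right
      rw [← e.apply_symm_apply x, h2, map_neg, map_one]
  · have h1 : (3 : ZMod 3) = 0 := by decide
    have h2 := congrArg e h1
    rw [map_zero] at h2
    rw [← h2]
    exact (map_ofNat e 3).symm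

theorem ev {F : Type v} [Field F] (u : ℕ → F) (n : ℕ) (x : F) :
    (∑ i ∈ range (n + 1), C (u i) * X ^ i : F[X]).eval x = ∑ i ∈ range (n + 1), u i * x ^ i := by
  rw [eval_finsetSum]
  simp

end Neg2

open Neg2 in
theorem rowNeg2 : StNeg.{v} := by
  intro F _ _ hF u hu N
  have hpos : 1 < Nat.card F := Finite.one_lt_card
  have hcases : Nat.card F = 2 ∨ Nat.card F = 3 := by omega
  rcases hcases with h | h
  · obtain ⟨h1, h2⟩ := two h
    refine ⟨2 * N + 1, by omega, 1, ?_⟩
    rw [ev]
    have h3 : ∀ i, u i = 1 := fun i => (h1 (u i)).resolve_left (hu i)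
    simp only [h3, one_pow, mul_one, sum_const, card_range, nsmul_eq_mul]
    push_cast
    linear_combination ((N : F) + 1) * h2
  · obtain ⟨h1, h3⟩ := three h
    by_contra hcon
    push Not at hcon
    -- values at 1 and at -1
    let z : ℕ → F := fun n => ∑ i ∈ range (n + 1), u i
    let y : ℕ → F := fun n => ∑ i ∈ range (n + 1), u i * (-1) ^ i
    have hz : ∀ n, N ≤ n → z n ≠ 0 := by
      intro n hn h0
      refine hcon n hn 1 ?_
      rw [ev]
      simpa [z] using h0
    have hy : ∀ n, N ≤ n → y n ≠ 0 := by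
      intro n hn h0
      refine hcon n hn (-1) ?_
      rw [ev]
      exact h0
    have hzs : ∀ n, z (n + 1) = z n + u (n + 1) := fun n => sum_range_succ _ _
    have hys : ∀ n, y (n + 1) = y n + u (n + 1) * (-1) ^ (n + 1) := fun n => sum_range_succ _ _
    have key : ∀ a b : F, a ≠ 0 → b ≠ 0 → a + b ≠ 0 → b = a := by
      intro a b ha hb hab
      rcases h1 a with h4 | h4 | h4 <;> rcases h1 b with h5 | h5 | h5
      all_goals first
        | exact absurd h4 ha
        | exact absurd h5 hb
        | exact h5.trans h4.symm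
        | (exfalso; apply hab; rw [h4, h5]; ring)
    have hu1 : ∀ n, N ≤ n → u (n + 1) = z n := by
      intro n hn
      refine key _ _ (hz n hn) (hu _) ?_
      rw [← hzs]
      exact hz _ (by omega)
    have hz2 : z (N + 1) = - z N := by
      rw [hzs, hu1 N le_rfl]
      linear_combination z N * h3
    have hy1 : y (N + 1) = y N + z N * (-1) ^ (N + 1) := by
      rw [hys, hu1 N le_rfl]
    have hy2 : y (N + 2) = y N + 2 * (z N * (-1) ^ (N + 1)) := by
      rw [hys (N + 1), hu1 (N + 1) (by omega), hz2, hy1]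
      ring
    have hs : z N * (-1) ^ (N + 1) ≠ 0 :=
      mul_ne_zero (hz N le_rfl) (pow_ne_zero _ (neg_ne_zero.2 one_ne_zero))
    have h4 := hy N le_rfl
    have h5 := hy (N + 1) (by omega)
    have h6 := hy (N + 2) (by omega)
    rw [hy1] at h5
    rw [hy2] at h6
    have h7 := key _ _ h4 hs h5
    apply h6
    rw [h7]
    linear_combination y N * h3

end Pool.Agent.Lib.MP_5f5f24_nt.NB
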