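import Pool.Agent.Lib.MP_5f5f24_nt.NB.Defs26

/-! MP_5f5f24: row NEG (helper73). -/

set_option autoImplicit false

namespace Pool.Agent.Lib.MP_5f5f24_nt.NB

open Finset Polynomial

universe v

theorem evalSum_73 {F : Type v} [Field F] (u : ℕ → F) (n : ℕ) (x : F) :
    (∑ i ∈ range n, C (u i) * X ^ i : F[X]).eval x = ∑ i ∈ range n, u i * x ^ i := by
  simp [Polynomial.eval_finset_sum]

theorem rowNeg73 : StNeg.{v} := by
  intro F _ _ hcard u hu N
  haveI := Fintype.ofFinite F
  have hc : Nat.card F = Fintype.card F := Nat.card_eq_fintype_card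
  have h1 : 1 < Fintype.card F := Fintype.one_lt_card
  have hpow : ∀ x : F, x ^ Fintype.card F = x := FiniteField.pow_card
  have hz : ((Fintype.card F : ℕ) : F) = 0 := FiniteField.cast_card_eq_zero F
  have h23 : Fintype.card F = 2 ∨ Fintype.card F = 3 := by omega
  rcases h23 with h2 | h3
  · rw [h2] at hpow hz
    have hone : ∀ i, u i = 1 := by
      intro i
      have h := hpow (u i)
      have h' : u i * (u i - 1) = 0 := by linear_combination h
      rcases mul_eq_zero.1 h' with h0 | h0
      · exact absurd h0 (hu i)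
      · linear_combination h0
    refine ⟨2 * N + 1, by omega, 1, ?_⟩
    rw [evalSum_73]
    have : ∀ i ∈ range (2 * N + 1 + 1), u i * (1 : F) ^ i = 1 := fun i _ => by
      rw [hone i, one_pow, one_mul]
    rw [Finset.sum_congr rfl this]
    simp only [Finset.sum_const, Finset.card_range, nsmul_eq_mul, mul_one]
    push_cast at hz ⊢
    linear_combination ((N : F) + 1) * hz
  · rw [h3] at hpow hz
    push_cast at hz
    have hsq : ∀ x : F, x ≠ 0 → x ^ 2 = 1 := by
      intro x hx
      have h := hpow x
      have h' : x * (x ^ 2 - 1) = 0 := by linear_combination h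
      rcases mul_eq_zero.1 h' with h0 | h0
      · exact absurd h0 hx
      · linear_combination h0
    have heq : ∀ x y : F, x ≠ 0 → y ≠ 0 → x + y ≠ 0 → y = x := by
      intro x y hx hy hxy
      have h' : (x + y) * (y - x) = 0 := by linear_combination hsq y hy - hsq x hx
      rcases mul_eq_zero.1 h' with h0 | h0
      · exact absurd h0 hxy
      · linear_combination h0
    by_contra hno
    push Not at hno
    have hA : ∀ n, N ≤ n → ∀ x : F, ∑ i ∈ range (n + 1), u i * x ^ i ≠ 0 := by
      intro n hn x
      rw [← evalSum_73]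
      exact hno n hn x
    have z0 := hA N le_rfl 1
    have z1 := hA (N + 1) (by omega) 1
    have z2 := hA (N + 2) (by omega) 1
    have w0 := hA N le_rfl (-1)
    have w1 := hA (N + 1) (by omega) (-1)
    have w2 := hA (N + 2) (by omega) (-1)
    rw [Finset.sum_range_succ] at z1 w1
    rw [show N + 2 + 1 = (N + 1 + 1) + 1 from rfl, Finset.sum_range_succ,
      Finset.sum_range_succ] at z2 w2
    have he : ((-1 : F) ^ (N + 1)) ^ 2 = 1 := by
      rw [← pow_mul, mul_comm, pow_mul]; simp
    have he' : (-1 : F) ^ (N + 1 + 1) = - (-1 : F) ^ (N + 1) := by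
      rw [pow_succ]; ring
    rw [he'] at w2
    set z := ∑ i ∈ range (N + 1), u i * (1 : F) ^ i with hzdef
    set w := ∑ i ∈ range (N + 1), u i * (-1 : F) ^ i with hwdef
    set e := (-1 : F) ^ (N + 1) with hedef
    rw [one_pow, mul_one] at z1 z2
    rw [one_pow, mul_one] at z2
    have ha := heq z (u (N + 1)) z0 (hu _) z1
    have hza : z + u (N + 1) = - z := by rw [ha]; linear_combination z * hz
    rw [hza] at z2
    have hb := heq (-z) (u (N + 1 + 1)) (neg_ne_zero.2 z0) (hu _) z2
    rw [ha] at w1 w2
    rw [hb] at w2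
    have he0 : e ≠ 0 := by
      intro h0
      rw [h0] at he
      simp at he
    have hw := heq w (z * e) w0 (mul_ne_zero z0 he0) w1
    apply w2
    linear_combination 2 * hw + w * hz

end Pool.Agent.Lib.MP_5f5f24_nt.NB
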