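import Mathlib
import Pool.Agent.Lib.MP_5f5f24_nt.NB.Defs26

/-! Row NEG (helper94): two or three elements. -/

set_option autoImplicit false

namespace Pool.Agent.Lib.MP_5f5f24_nt.NB

open Finset Polynomial

universe v

/-- at most three elements: nonzero elements with nonzero sum are equal -/
theorem eq_of_add_ne94 {F : Type v} [Field F] [Finite F] (h : Nat.card F ≤ 3) {a b : F}
    (ha : a ≠ 0) (hb : b ≠ 0) (hab : a + b ≠ 0) : a = b := by
  classical
  by_contra hne
  have := Fintype.ofFinite F
  have h4 : ({0, a, b, a + b} : Finset F).card = 4 := by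
    rw [card_insert_of_notMem, card_insert_of_notMem, card_insert_of_notMem, card_singleton]
    · simp only [mem_singleton]
      intro h1
      apply ha
      linear_combination -h1
    · simp only [mem_insert, mem_singleton, not_or]
      refine ⟨hne, ?_⟩
      intro h1
      apply hb
      linear_combination -h1
    · simp only [mem_insert, mem_singleton, not_or]
      exact ⟨Ne.symm ha, Ne.symm hb, Ne.symm hab⟩
  have h5 : ({0, a, b, a + b} : Finset F).card ≤ Fintype.card F := card_le_univ _
  rw [h4, ← Nat.card_eq_fintype_card] at h5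
  omega

theorem step94 {F : Type v} [Field F] [Finite F] (h : Nat.card F ≤ 3) (w : ℕ → F)
    (hw : ∀ i, w i ≠ 0) (N : ℕ) (hN : ∀ n, N ≤ n → ∑ i ∈ range (n + 1), w i ≠ 0) (n : ℕ)
    (hn : N ≤ n) : w (n + 2) = 2 * w (n + 1) := by
  have h0 := hN n hn
  have h1 := hN (n + 1) (by omega)
  have h2 := hN (n + 2) (by omega)
  have e1 : ∑ i ∈ range (n + 1 + 1), w i = ∑ i ∈ range (n + 1), w i + w (n + 1) :=
    sum_range_succ _ _
  have e2 : ∑ i ∈ range (n + 2 + 1), w i = ∑ i ∈ range (n + 1 + 1), w i + w (n + 2) :=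
    sum_range_succ _ _
  have k1 : ∑ i ∈ range (n + 1), w i = w (n + 1) :=
    eq_of_add_ne94 h h0 (hw _) (by rw [← e1]; exact h1)
  have k2 : ∑ i ∈ range (n + 1 + 1), w i = w (n + 2) :=
    eq_of_add_ne94 h h1 (hw _) (by rw [← e2]; exact h2)
  rw [← k2, e1, k1]
  ring

theorem rowNeg94 : StNeg.{v} := by
  intro F _ _ h3 u hu N
  by_contra hno
  push Not at hno
  have hev : ∀ (n : ℕ) (x : F), (∑ i ∈ range (n + 1), C (u i) * X ^ i : F[X]).eval x
      = ∑ i ∈ range (n + 1), u i * x ^ i := by
    intro n x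
    rw [eval_finsetSum]
    simp
  have hS : ∀ x : F, x ≠ 0 → u (N + 2) * x ^ (N + 2) = 2 * (u (N + 1) * x ^ (N + 1)) := by
    intro x hx
    apply step94 h3 (fun i => u i * x ^ i) (fun i => mul_ne_zero (hu i) (pow_ne_zero i hx)) N
    · intro n hn
      have := hno n hn x
      rw [hev] at this
      exact this
    · exact le_refl N
  have hS' : ∀ x : F, x ≠ 0 → u (N + 3) * x ^ (N + 3) = 2 * (u (N + 2) * x ^ (N + 2)) := by
    intro x hx
    apply step94 h3 (fun i => u i * x ^ i) (fun i => mul_ne_zero (hu i) (pow_ne_zero i hx)) N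
    · intro n hn
      have := hno n hn x
      rw [hev] at this
      exact this
    · omega
  have a1 := hS 1 one_ne_zero
  have a2 := hS (-1) (neg_ne_zero.mpr one_ne_zero)
  have b1 := hS' 1 one_ne_zero
  simp only [one_pow, mul_one] at a1 b1
  have c1 : u (N + 2) = - (2 * u (N + 1)) := by
    have hp : ((-1 : F)) ^ (N + 1) ≠ 0 := pow_ne_zero _ (neg_ne_zero.mpr one_ne_zero)
    apply mul_right_cancel₀ hp
    have : ((-1 : F)) ^ (N + 2) = (-1) ^ (N + 1) * (-1) := pow_succ _ _
    rw [this] at a2
    linear_combination -a2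
  apply hu (N + 3)
  rw [b1]
  linear_combination a1 + c1

end Pool.Agent.Lib.MP_5f5f24_nt.NB
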